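import Mathlib

set_option autoImplicit false

/-! A cubical Poincare-Miranda lemma, proved with cochains modulo two. -/

namespace Pool.Agent.B1d060.PM

open Finset

variable {ι : Type} [DecidableEq ι]

/-- add one in direction `i` -/
def bump (w : ι → ℕ) (i : ι) : ι → ℕ := Function.update w i (w i + 1)

theorem bump_self (w : ι → ℕ) (i : ι) : bump w i i = w i + 1 := by
  simp [bump]

theorem bump_ne (w : ι → ℕ) {i j : ι} (h : j ≠ i) : bump w i j = w j := by
  simp [bump, h]

theorem bump_comm (w : ι → ℕ) (i j : ι) : bump (bump w i) j = bump (bump w j) i := by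
  by_cases h : i = j
  · subst h; rfl
  · funext k
    by_cases hk : k = i
    · subst hk
      rw [bump_ne _ h, bump_self, bump_self, bump_ne _ h]
    · by_cases hk' : k = j
      · subst hk'
        rw [bump_self, bump_ne _ hk, bump_ne _ hk, bump_self]
      · rw [bump_ne _ hk', bump_ne _ hk, bump_ne _ hk, bump_ne _ hk']

/-- iterated coboundary product, evaluated on the cube at `w` with directions `D` -/
def R (f : ι → (ι → ℕ) → ZMod 2) : List ι → (ι → ℕ) → Finset ι → ZMod 2
  | [], _, _ => 1
  | a :: L, w, D => ∑ i ∈ D, (f a (bump w i) + f a w) * R f L (bump w i) (D.erase i)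

theorem add_self (x : ZMod 2) : x + x = 0 := CharTwo.add_self_eq_zero x

/-- sum over ordered pairs of distinct elements of a symmetric function vanishes -/
theorem sum_pairs_symm (D : Finset ι) (F : ι → ι → ZMod 2) (hF : ∀ i j, F i j = F j i) :
    ∑ i ∈ D, ∑ j ∈ D.erase i, F i j = 0 := by
  have h1 : ∑ i ∈ D, ∑ j ∈ D.erase i, F i j = ∑ p ∈ D.offDiag, F p.1 p.2 := by
    rw [Finset.sum_sigma']
    refine Finset.sum_bij' (fun p _ => (p.1, p.2)) (fun p _ => ⟨p.1, p.2⟩) ?_ ?_ ?_ ?_ ?_
    · rintro ⟨i, j⟩ h
      simp only [Finset.mem_sigma, Finset.mem_erase] at h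
      simp only [Finset.mem_offDiag]
      exact ⟨h.1, h.2.2, Ne.symm h.2.1⟩
    · rintro ⟨i, j⟩ h
      simp only [Finset.mem_offDiag] at h
      simp only [Finset.mem_sigma, Finset.mem_erase]
      exact ⟨h.1, Ne.symm h.2.2, h.2.1⟩
    · rintro ⟨i, j⟩ _; rfl
    · rintro ⟨i, j⟩ _; rfl
    · rintro ⟨i, j⟩ _; rfl
  rw [h1]
  refine Finset.sum_involution (fun p _ => (p.2, p.1)) ?_ ?_ ?_ ?_
  · rintro ⟨i, j⟩ _
    change F i j + F j i = 0
    rw [hF i j, add_self]
  · rintro ⟨i, j⟩ h _ he
    simp only [Finset.mem_offDiag] at h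
    exact h.2.2 (congrArg Prod.snd he)
  · rintro ⟨i, j⟩ h
    simp only [Finset.mem_offDiag] at h ⊢
    exact ⟨h.2.1, h.1, Ne.symm h.2.2⟩
  · rintro ⟨i, j⟩ _; rfl

theorem erase_comm (D : Finset ι) (i j : ι) : (D.erase i).erase j = (D.erase j).erase i :=
  Finset.erase_right_comm

/-- closedness of the iterated products -/
theorem closed (f : ι → (ι → ℕ) → ZMod 2) (L : List ι) :
    ∀ (w : ι → ℕ) (D : Finset ι),
      ∑ i ∈ D, R f L (bump w i) (D.erase i) = ∑ i ∈ D, R f L w (D.erase i) := by
  induction L with
  | nil => intro w D; rfl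
  | cons a L ih =>
    intro w D
    have e1 : ∑ i ∈ D, R f (a :: L) (bump w i) (D.erase i) =
        ∑ i ∈ D, ∑ j ∈ D.erase i, f a (bump (bump w i) j) *
          R f L (bump (bump w i) j) ((D.erase i).erase j) +
        ∑ i ∈ D, f a (bump w i) * ∑ j ∈ D.erase i, R f L (bump w i) ((D.erase i).erase j) := by
      rw [← Finset.sum_add_distrib]
      refine Finset.sum_congr rfl fun i _ => ?_
      rw [← ih (bump w i) (D.erase i), Finset.mul_sum, ← Finset.sum_add_distrib]
      change ∑ j ∈ D.erase i, _ = _
      refine Finset.sum_congr rfl fun j _ => ?_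
      ring
    have e2 : ∑ i ∈ D, R f (a :: L) w (D.erase i) =
        ∑ i ∈ D, ∑ j ∈ D.erase i, f a (bump w j) *
          R f L (bump w j) ((D.erase i).erase j) +
        ∑ i ∈ D, f a w * ∑ j ∈ D.erase i, R f L w ((D.erase i).erase j) := by
      rw [← Finset.sum_add_distrib]
      refine Finset.sum_congr rfl fun i _ => ?_
      rw [← ih w (D.erase i), Finset.mul_sum, ← Finset.sum_add_distrib]
      change ∑ j ∈ D.erase i, _ = _
      refine Finset.sum_congr rfl fun j _ => ?_
      ring
    have z1 : ∑ i ∈ D, ∑ j ∈ D.erase i, f a (bump (bump w i) j) *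
          R f L (bump (bump w i) j) ((D.erase i).erase j) = 0 := by
      refine sum_pairs_symm D _ ?_
      intro i j
      rw [bump_comm w i j, erase_comm D i j]
    have z2 : ∑ i ∈ D, f a w * ∑ j ∈ D.erase i, R f L w ((D.erase i).erase j) = 0 := by
      rw [← Finset.mul_sum, sum_pairs_symm D (fun i j => R f L w ((D.erase i).erase j)), mul_zero]
      intro i j
      rw [erase_comm D i j]
    have z3 : ∑ i ∈ D, ∑ j ∈ D.erase i, f a (bump w j) *
          R f L (bump w j) ((D.erase i).erase j) =
        ∑ i ∈ D, f a (bump w i) * ∑ j ∈ D.erase i, R f L (bump w i) ((D.erase i).erase j) := by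
      have z4 : ∀ F : ι → ι → ZMod 2, ∑ i ∈ D, ∑ j ∈ D.erase i, F i j =
          ∑ i ∈ D, ∑ j ∈ D.erase i, F j i := by
        intro F
        have h := sum_pairs_symm D (fun i j => F i j + F j i) (fun i j => add_comm _ _)
        simp only [Finset.sum_add_distrib] at h
        exact CharTwo.add_eq_zero.mp h
      rw [z4]
      refine Finset.sum_congr rfl fun i _ => ?_
      rw [Finset.mul_sum]
      refine Finset.sum_congr rfl fun j _ => ?_
      rw [erase_comm D i j]
    rw [e1, e2, z1, z2, z3]
    ring


section box

variable [Fintype ι]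

/-- half-open box with active directions `D` based at `b` -/
def Box (N : ℕ) (D : Finset ι) (b : ι → ℕ) : Finset (ι → ℕ) :=
  Fintype.piFinset (fun i => if i ∈ D then Finset.range N else {b i})

theorem mem_Box {N : ℕ} {D : Finset ι} {b z : ι → ℕ} :
    z ∈ Box N D b ↔ (∀ i ∈ D, z i < N) ∧ ∀ i, i ∉ D → z i = b i := by
  unfold Box
  rw [Fintype.mem_piFinset]
  constructor
  · intro h
    constructor
    · intro i hi
      have := h i
      rw [if_pos hi] at this
      exact Finset.mem_range.mp this
    · intro i hi
      have := h i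
      rw [if_neg hi] at this
      exact Finset.mem_singleton.mp this
  · rintro ⟨h1, h2⟩ i
    by_cases hi : i ∈ D
    · rw [if_pos hi]; exact Finset.mem_range.mpr (h1 i hi)
    · rw [if_neg hi]; exact Finset.mem_singleton.mpr (h2 i hi)

theorem sum_Box_slice (N : ℕ) (D : Finset ι) (b : ι → ℕ) {i : ι} (hi : i ∈ D)
    (H : (ι → ℕ) → ZMod 2) :
    ∑ z ∈ Box N D b, H z =
      ∑ a ∈ Finset.range N, ∑ z ∈ Box N (D.erase i) (Function.update b i a), H z := by
  rw [Finset.sum_sigma']
  refine Finset.sum_bij' (fun z _ => ⟨z i, z⟩) (fun p _ => p.2) ?_ ?_ ?_ ?_ ?_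
  · intro z hz
    rw [mem_Box] at hz
    simp only [Finset.mem_sigma, Finset.mem_range]
    refine ⟨hz.1 i hi, ?_⟩
    rw [mem_Box]
    constructor
    · intro j hj
      exact hz.1 j (Finset.mem_of_mem_erase hj)
    · intro j hj
      by_cases hji : j = i
      · subst hji; simp
      · rw [Function.update_of_ne hji]
        refine hz.2 j ?_
        intro hjD
        exact hj (Finset.mem_erase.mpr ⟨hji, hjD⟩)
  · rintro ⟨a, z⟩ h
    simp only [Finset.mem_sigma, Finset.mem_range] at h
    obtain ⟨ha, hz⟩ := h
    rw [mem_Box] at hz ⊢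
    have hzi : z i = a := by
      rw [hz.2 i (Finset.notMem_erase i D)]; simp
    constructor
    · intro j hj
      change z j < N
      by_cases hji : j = i
      · subst hji; rw [hzi]; exact ha
      · exact hz.1 j (Finset.mem_erase.mpr ⟨hji, hj⟩)
    · intro j hj
      change z j = b j
      have hji : j ≠ i := by
        rintro rfl; exact hj hi
      rw [hz.2 j (fun h => hj (Finset.mem_of_mem_erase h)), Function.update_of_ne hji]
  · intro z _; rfl
  · rintro ⟨a, z⟩ h
    simp only [Finset.mem_sigma, Finset.mem_range] at h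
    obtain ⟨ha, hz⟩ := h
    rw [mem_Box] at hz
    have hzi : z i = a := by
      rw [hz.2 i (Finset.notMem_erase i D)]; simp
    change (⟨z i, z⟩ : Σ _ : ℕ, (ι → ℕ)) = ⟨a, z⟩
    rw [hzi]
  · intro z _; rfl

theorem sum_Box_bump (N : ℕ) (D : Finset ι) (b : ι → ℕ) {i : ι} (a : ℕ)
    (H : (ι → ℕ) → ZMod 2) :
    ∑ z ∈ Box N (D.erase i) (Function.update b i a), H (bump z i) =
      ∑ z ∈ Box N (D.erase i) (Function.update b i (a + 1)), H z := by
  refine Finset.sum_bij' (fun z _ => bump z i) (fun z _ => Function.update z i a) ?_ ?_ ?_ ?_ ?_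
  · intro z hz
    rw [mem_Box] at hz ⊢
    constructor
    · intro j hj
      rw [bump_ne _ (Finset.ne_of_mem_erase hj)]
      exact hz.1 j hj
    · intro j hj
      by_cases hji : j = i
      · subst hji
        rw [bump_self, hz.2 j hj]; simp
      · rw [bump_ne _ hji, Function.update_of_ne hji, hz.2 j hj, Function.update_of_ne hji]
  · intro z hz
    rw [mem_Box] at hz ⊢
    constructor
    · intro j hj
      rw [Function.update_of_ne (Finset.ne_of_mem_erase hj)]
      exact hz.1 j hj
    · intro j hj
      by_cases hji : j = i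
      · subst hji; simp
      · rw [Function.update_of_ne hji, Function.update_of_ne hji, hz.2 j hj,
          Function.update_of_ne hji]
  · intro z hz
    rw [mem_Box] at hz
    have hzi : z i = a := by
      rw [hz.2 i (Finset.notMem_erase i D)]; simp
    funext j
    by_cases hji : j = i
    · subst hji; simp [hzi]
    · rw [Function.update_of_ne hji, bump_ne _ hji]
  · intro z hz
    rw [mem_Box] at hz
    have hzi : z i = a + 1 := by
      rw [hz.2 i (Finset.notMem_erase i D)]; simp
    funext j
    by_cases hji : j = i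
    · subst hji; rw [bump_self]; simp [hzi]
    · rw [bump_ne _ hji, Function.update_of_ne hji]
  · intro z _; rfl

theorem telescope (T : ℕ → ZMod 2) (N : ℕ) :
    ∑ a ∈ Finset.range N, (T (a + 1) + T a) = T N + T 0 := by
  induction N with
  | zero => simp [add_self]
  | succ n ih =>
    rw [Finset.sum_range_succ, ih]
    have := add_self (T n)
    linear_combination this

theorem sum_Box_tele (N : ℕ) (D : Finset ι) (b : ι → ℕ) {i : ι} (hi : i ∈ D)
    (H : (ι → ℕ) → ZMod 2) :
    ∑ z ∈ Box N D b, (H (bump z i) + H z) =
      ∑ z ∈ Box N (D.erase i) (Function.update b i N), H z +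
      ∑ z ∈ Box N (D.erase i) (Function.update b i 0), H z := by
  rw [sum_Box_slice N D b hi]
  simp only [Finset.sum_add_distrib, sum_Box_bump]
  rw [← Finset.sum_add_distrib]
  exact telescope (fun a => ∑ z ∈ Box N (D.erase i) (Function.update b i a), H z) N

end box

/-- if a function is constant along unused boundary directions the product vanishes -/
theorem R_zero (f : ι → (ι → ℕ) → ZMod 2) (i : ι) (P : (ι → ℕ) → Prop)
    (c : ZMod 2) (hf : ∀ w, P w → f i w = c)
    (hP : ∀ w j, j ≠ i → P w → P (bump w j)) (L : List ι) :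
    ∀ (w : ι → ℕ) (D : Finset ι), i ∈ L → i ∉ D → P w → R f L w D = 0 := by
  induction L with
  | nil => intro w D h; exact absurd h (List.not_mem_nil)
  | cons a L ih =>
    intro w D hL hD hw
    change ∑ j ∈ D, (f a (bump w j) + f a w) * R f L (bump w j) (D.erase j) = 0
    refine Finset.sum_eq_zero fun j hj => ?_
    have hji : j ≠ i := by
      rintro rfl; exact hD hj
    by_cases hai : a = i
    · subst hai
      rw [hf _ (hP w j hji hw), hf w hw, add_self, zero_mul]
    · have hL' : i ∈ L := by
        rcases List.mem_cons.mp hL with h | h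
        · exact absurd h.symm hai
        · exact h
      rw [ih (bump w j) (D.erase j) hL' (fun h => hD (Finset.mem_of_mem_erase h))
        (hP w j hji hw), mul_zero]

theorem degree [Fintype ι] (N : ℕ) (f : ι → (ι → ℕ) → ZMod 2)
    (h0 : ∀ i w, w i = 0 → f i w = 0) (h1 : ∀ i w, w i = N → f i w = 1) (L : List ι) :
    L.Nodup → ∀ b : ι → ℕ, ∑ z ∈ Box N L.toFinset b, R f L z L.toFinset = 1 := by
  induction L with
  | nil =>
    intro _ b
    have : Box N ([] : List ι).toFinset b = {b} := by
      ext z
      rw [mem_Box, Finset.mem_singleton]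
      constructor
      · intro h
        funext i
        exact h.2 i (by simp)
      · rintro rfl
        exact ⟨fun i hi => absurd hi (by simp), fun i _ => rfl⟩
    rw [this, Finset.sum_singleton]
    rfl
  | cons a L ih =>
    intro hnd b
    have haL : a ∉ L := (List.nodup_cons.mp hnd).1
    have hndL : L.Nodup := (List.nodup_cons.mp hnd).2
    set D := (a :: L).toFinset with hD
    have haD : a ∈ D := by simp [hD]
    have hDe : D.erase a = L.toFinset := by
      ext i
      simp only [hD, Finset.mem_erase, List.mem_toFinset, List.mem_cons]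
      constructor
      · rintro ⟨h, h' | h'⟩
        · exact absurd h' h
        · exact h'
      · intro h
        exact ⟨fun e => haL (e ▸ h), Or.inr h⟩
    have e1 : ∑ z ∈ Box N D b, R f (a :: L) z D =
        ∑ i ∈ D, ∑ z ∈ Box N D b, (f a (bump z i) * R f L (bump z i) (D.erase i) +
          f a z * R f L z (D.erase i)) := by
      rw [Finset.sum_comm]
      refine Finset.sum_congr rfl fun z _ => ?_
      rw [Finset.sum_add_distrib, ← Finset.mul_sum, ← closed f L z D, Finset.mul_sum,
        ← Finset.sum_add_distrib]
      change ∑ i ∈ D, _ = _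
      refine Finset.sum_congr rfl fun i _ => ?_
      ring
    rw [e1]
    have e2 : ∀ i ∈ D, ∑ z ∈ Box N D b, (f a (bump z i) * R f L (bump z i) (D.erase i) +
          f a z * R f L z (D.erase i)) = if i = a then 1 else 0 := by
      intro i hi
      have e3 := sum_Box_tele N D b hi (fun z => f a z * R f L z (D.erase i))
      rw [e3]
      by_cases hia : i = a
      · subst hia
        rw [if_pos rfl, hDe]
        have e4 : ∑ z ∈ Box N L.toFinset (Function.update b i 0),
            f i z * R f L z L.toFinset = 0 := by
          refine Finset.sum_eq_zero fun z hz => ?_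
          rw [mem_Box] at hz
          have : z i = 0 := by
            rw [hz.2 i (by simpa using haL)]; simp
          rw [h0 i z this, zero_mul]
        have e5 : ∑ z ∈ Box N L.toFinset (Function.update b i N),
            f i z * R f L z L.toFinset = 1 := by
          rw [← ih hndL (Function.update b i N)]
          refine Finset.sum_congr rfl fun z hz => ?_
          rw [mem_Box] at hz
          have : z i = N := by
            rw [hz.2 i (by simpa using haL)]; simp
          rw [h1 i z this, one_mul]
        rw [e4, e5, add_zero]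
      · rw [if_neg hia]
        have hiL : i ∈ L := by
          have : i ∈ (a :: L) := by simpa [hD] using hi
          rcases List.mem_cons.mp this with h | h
          · exact absurd h hia
          · exact h
        have e4 : ∑ z ∈ Box N (D.erase i) (Function.update b i 0),
            f a z * R f L z (D.erase i) = 0 := by
          refine Finset.sum_eq_zero fun z hz => ?_
          rw [mem_Box] at hz
          have hz0 : z i = 0 := by
            rw [hz.2 i (Finset.notMem_erase i D)]; simp
          rw [R_zero f i (fun w => w i = 0) 0 (fun w hw => h0 i w hw)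
            (fun w j hj hw => by rw [bump_ne _ (Ne.symm hj)]; exact hw) L z (D.erase i) hiL
            (Finset.notMem_erase i D) hz0, mul_zero]
        have e5 : ∑ z ∈ Box N (D.erase i) (Function.update b i N),
            f a z * R f L z (D.erase i) = 0 := by
          refine Finset.sum_eq_zero fun z hz => ?_
          rw [mem_Box] at hz
          have hz0 : z i = N := by
            rw [hz.2 i (Finset.notMem_erase i D)]; simp
          rw [R_zero f i (fun w => w i = N) 1 (fun w hw => h1 i w hw)
            (fun w j hj hw => by rw [bump_ne _ (Ne.symm hj)]; exact hw) L z (D.erase i) hiL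
            (Finset.notMem_erase i D) hz0, mul_zero]
        rw [e4, e5, add_zero]
    rw [Finset.sum_congr rfl e2, Finset.sum_ite_eq' D a, if_pos haD]

/-- points of the unit cube at `w` -/
def InCube (w v : ι → ℕ) : Prop := ∀ i, v i = w i ∨ v i = w i + 1

/-- points of the unit cube at `w` with active directions `D` -/
def InCubeD (D : Finset ι) (w v : ι → ℕ) : Prop :=
  ∀ i, v i = w i ∨ (i ∈ D ∧ v i = w i + 1)

theorem exists_change (f : ι → (ι → ℕ) → ZMod 2) (L : List ι) :
    ∀ (w : ι → ℕ) (D : Finset ι), R f L w D ≠ 0 →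
      ∀ a ∈ L, ∃ u v, InCubeD D w u ∧ InCubeD D w v ∧ f a u ≠ f a v := by
  induction L with
  | nil => intro w D _ a ha; exact absurd ha (List.not_mem_nil)
  | cons c L ih =>
    intro w D h a ha
    obtain ⟨j, hj, hne⟩ := Finset.exists_ne_zero_of_sum_ne_zero h
    have hne1 : f c (bump w j) + f c w ≠ 0 := left_ne_zero_of_mul hne
    have hne2 : R f L (bump w j) (D.erase j) ≠ 0 := right_ne_zero_of_mul hne
    rcases List.mem_cons.mp ha with rfl | haL
    · refine ⟨bump w j, w, ?_, fun i => Or.inl rfl, ?_⟩
      · intro i
        by_cases hij : i = j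
        · subst hij; exact Or.inr ⟨hj, bump_self w i⟩
        · exact Or.inl (bump_ne w hij)
      · intro he
        exact hne1 (by rw [he, add_self])
    · obtain ⟨u, v, hu, hv, huv⟩ := ih (bump w j) (D.erase j) hne2 a haL
      have key : ∀ u, InCubeD (D.erase j) (bump w j) u → InCubeD D w u := by
        intro u hu i
        rcases hu i with h | ⟨h, h'⟩
        · by_cases hij : i = j
          · subst hij
            rw [bump_self] at h
            exact Or.inr ⟨hj, h⟩
          · rw [bump_ne w hij] at h
            exact Or.inl h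
        · rw [bump_ne w (Finset.ne_of_mem_erase h)] at h'
          exact Or.inr ⟨Finset.mem_of_mem_erase h, h'⟩
      exact ⟨u, v, key u hu, key v hv, huv⟩

/-- Cubical Poincare-Miranda: boolean functions with the standard boundary values on the box
`[0,N]^ι` cannot be such that on every unit cube at least one of them is constant. -/
theorem poincare_miranda [Fintype ι] (N : ℕ) (g : ι → (ι → ℕ) → Bool)
    (h0 : ∀ i w, w i = 0 → g i w = false) (h1 : ∀ i w, w i = N → g i w = true) :
    ∃ w : ι → ℕ, (∀ i, w i < N) ∧
      ∀ a, ∃ u v, InCube w u ∧ InCube w v ∧ g a u = false ∧ g a v = true := by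
  classical
  let f : ι → (ι → ℕ) → ZMod 2 := fun i w => if g i w = true then 1 else 0
  have hd := degree N f (fun i w hw => by simp [f, h0 i w hw])
    (fun i w hw => by simp [f, h1 i w hw]) (Finset.univ.toList) (Finset.nodup_toList _) 0
  rw [Finset.toList_toFinset] at hd
  obtain ⟨w, hw, hne⟩ := Finset.exists_ne_zero_of_sum_ne_zero (by rw [hd]; exact one_ne_zero)
  rw [mem_Box] at hw
  refine ⟨w, fun i => hw.1 i (Finset.mem_univ i), fun a => ?_⟩
  obtain ⟨u, v, hu, hv, huv⟩ := exists_change f _ w _ hne a (by simp)
  have hc : ∀ u, InCubeD Finset.univ w u → InCube w u := by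
    intro u hu i
    rcases hu i with h | h
    · exact Or.inl h
    · exact Or.inr h.2
  cases hgu : g a u with
  | false =>
    cases hgv : g a v with
    | false => exact absurd (by simp [f, hgu, hgv]) huv
    | true => exact ⟨u, v, hc u hu, hc v hv, hgu, hgv⟩
  | true =>
    cases hgv : g a v with
    | false => exact ⟨v, u, hc v hv, hc u hu, hgv, hgu⟩
    | true => exact absurd (by simp [f, hgu, hgv]) huv

end Pool.Agent.B1d060.PM
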