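import Mathlib
import Pool.Agent.B1d060.PM

set_option autoImplicit false

/-! A space containing uniformly the grids of dimension `m` has no uniformly bounded covers
of multiplicity at most `m` at all scales. -/

namespace Pool.Agent.B1d060.Asdim

open Pool.Agent.B1d060.PM

section

variable {X : Type} (d : X → X → ℕ) {κ : Type} (U : κ → Set X) (s : ℕ)

/-- labels met within distance `k * s` -/
def NN (k : ℕ) (x : X) : Set κ := {i | ∃ y ∈ U i, d x y ≤ k * s}

theorem NN_mono {k l : ℕ} (h : k ≤ l) (x : X) : NN d U s k x ⊆ NN d U s l x := by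
  rintro i ⟨y, hy, hd⟩
  exact ⟨y, hy, hd.trans (Nat.mul_le_mul_right s h)⟩

theorem exists_stable {m : ℕ} (hcov : ∀ x, ∃ i, x ∈ U i) (hd0 : ∀ x, d x x = 0)
    (hm : ∀ x : X, {i : κ | ∃ y ∈ U i, d x y ≤ m * s}.encard ≤ (m : ℕ∞)) (x : X) :
    ∃ k : Fin m, NN d U s (k : ℕ) x = NN d U s ((k : ℕ) + 1) x := by
  by_contra hcon
  push Not at hcon
  have key : ∀ k : ℕ, k ≤ m → ((k + 1 : ℕ) : ℕ∞) ≤ (NN d U s k x).encard := by
    intro k
    induction k with
    | zero =>
      intro _
      obtain ⟨i, hi⟩ := hcov x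
      have : (NN d U s 0 x).Nonempty := ⟨i, x, hi, by rw [hd0]; exact Nat.zero_le _⟩
      simpa using Set.one_le_encard_iff_nonempty.mpr this
    | succ k ih =>
      intro hk
      have h1 := ih (by omega)
      have h2 : NN d U s k x ≠ NN d U s (k + 1) x := hcon ⟨k, by omega⟩
      have hss : NN d U s k x ⊂ NN d U s (k + 1) x :=
        lt_of_le_of_ne (NN_mono d U s (Nat.le_succ k) x) h2
      have hfin : (NN d U s k x).Finite := by
        have h3 : NN d U s k x ⊆ NN d U s m x := NN_mono d U s (by omega) x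
        have h4 : (NN d U s m x).encard ≤ (m : ℕ∞) := hm x
        have h5 : (NN d U s m x).Finite :=
          Set.encard_lt_top_iff.mp (lt_of_le_of_lt h4 (ENat.coe_lt_top m))
        exact h5.subset h3
      have h6 := hfin.encard_lt_encard hss
      have h7 : (NN d U s k x).encard + 1 ≤ (NN d U s (k + 1) x).encard :=
        Order.add_one_le_of_lt h6
      have h8 : (((k + 1 : ℕ) : ℕ∞) + 1) ≤ (NN d U s k x).encard + 1 := by gcongr
      calc ((k + 1 + 1 : ℕ) : ℕ∞) = ((k + 1 : ℕ) : ℕ∞) + 1 := by push_cast; rfl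
        _ ≤ _ := h8.trans h7
  have h9 := (key m le_rfl).trans (hm x)
  have h10 : m + 1 ≤ m := by exact_mod_cast h9
  omega

theorem same_label {m : ℕ} (hsymm : ∀ x y, d x y = d y x)
    (htri : ∀ x y z, d x z ≤ d x y + d y z) {x y : X} {k : ℕ}
    (hx : NN d U s k x = NN d U s (k + 1) x) (hy : NN d U s k y = NN d U s (k + 1) y)
    (hxy : d x y ≤ s) (_hm : m = m) : NN d U s k x = NN d U s k y := by
  apply Set.Subset.antisymm
  · rintro i ⟨u, hu, hd⟩
    rw [hy]
    refine ⟨u, hu, ?_⟩
    calc d y u ≤ d y x + d x u := htri _ _ _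
      _ ≤ s + k * s := by rw [hsymm y x]; exact Nat.add_le_add hxy hd
      _ = (k + 1) * s := by ring
  · rintro i ⟨u, hu, hd⟩
    rw [hx]
    refine ⟨u, hu, ?_⟩
    calc d x u ≤ d x y + d y u := htri _ _ _
      _ ≤ s + k * s := Nat.add_le_add hxy hd
      _ = (k + 1) * s := by ring

theorem close_of_label {D : ℕ} (hsymm : ∀ x y, d x y = d y x)
    (htri : ∀ x y z, d x z ≤ d x y + d y z)
    (hbd : ∀ i, ∀ x ∈ U i, ∀ y ∈ U i, d x y ≤ D) {x y : X} {k : ℕ}
    (hcov : ∀ x, ∃ i, x ∈ U i) (hd0 : ∀ x, d x x = 0)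
    (h : NN d U s k x = NN d U s k y) : d x y ≤ 2 * (k * s) + D := by
  obtain ⟨i, hi⟩ := hcov x
  have hix : i ∈ NN d U s k x := ⟨x, hi, by rw [hd0]; exact Nat.zero_le _⟩
  have hiy : i ∈ NN d U s k y := h ▸ hix
  obtain ⟨u, hu, hux⟩ := hix
  obtain ⟨v, hv, hvy⟩ := hiy
  calc d x y ≤ d x u + d u y := htri _ _ _
    _ ≤ d x u + (d u v + d v y) := Nat.add_le_add_left (htri _ _ _) _
    _ ≤ k * s + (D + k * s) := by
        have h1 := hbd i u hu v hv
        rw [hsymm v y]
        omega
    _ = 2 * (k * s) + D := by ring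

end

theorem no_cover {m : ℕ} {X : Type} (d : X → X → ℕ) (hd0 : ∀ x, d x x = 0)
    (hsymm : ∀ x y, d x y = d y x) (htri : ∀ x y z, d x z ≤ d x y + d y z)
    (s : ℕ) (F : (Fin m → ℕ) → X)
    (hup : ∀ z w : Fin m → ℕ, (∀ i, z i ≤ w i + 2 ∧ w i ≤ z i + 2) → d (F z) (F w) ≤ s)
    (hlow : ∀ z w : Fin m → ℕ, ∀ i, z i ≤ w i + d (F z) (F w)) :
    ¬ ∀ r : ℕ, ∃ (κ : Type) (U : κ → Set X) (D : ℕ),
          (∀ x : X, ∃ i, x ∈ U i) ∧
          (∀ i, ∀ x ∈ U i, ∀ y ∈ U i, d x y ≤ D) ∧
          ∀ x : X, {i : κ | ∃ y ∈ U i, d x y ≤ r}.encard ≤ (m : ℕ∞) := by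
  intro hall
  obtain ⟨κ, U, D, hcov, hbd, hm⟩ := hall (m * s)
  choose col hcol using exists_stable d U s hcov hd0 hm
  classical
  let T : X → Set κ := fun x => NN d U s (col x : ℕ) x
  let N : ℕ := 2 * (m * s) + D + 3
  let touch : Fin m → (Fin m → ℕ) → Prop := fun j w =>
    ∃ w' : Fin m → ℕ, col (F w') = j ∧ T (F w') = T (F w) ∧ w' j ≤ 1
  let near : (Fin m → ℕ) → (Fin m → ℕ) → Prop := fun w z => ∀ i, w i ≤ z i + 1 ∧ z i ≤ w i + 1
  let g : Fin m → (Fin m → ℕ) → Bool := fun j z =>
    decide (z j = N ∨ (z j ≠ 0 ∧ ¬ ∃ w, col (F w) = j ∧ near w z ∧ touch j w))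
  have hN0 : N ≠ 0 := by change 2 * (m * s) + D + 3 ≠ 0; omega
  have g0 : ∀ i w, w i = 0 → g i w = false := by
    intro i w hw
    change decide _ = false
    rw [decide_eq_false_iff_not]
    rintro (h | h)
    · exact hN0 (h ▸ hw)
    · exact h.1 hw
  have g1 : ∀ i w, w i = N → g i w = true := by
    intro i w hw
    change decide _ = true
    rw [decide_eq_true_iff]
    exact Or.inl hw
  obtain ⟨w0, hw0, hch⟩ := poincare_miranda N g g0 g1
  set j := col (F w0) with hj
  -- all labels of near points coincide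
  have hTnear : ∀ w, col (F w) = j → (∀ i, w i ≤ w0 i + 2 ∧ w0 i ≤ w i + 2) →
      T (F w) = T (F w0) := by
    intro w hw hnear
    have h1 := hcol (F w)
    have h2 := hcol (F w0)
    have h3 := hup w w0 hnear
    change NN d U s (col (F w) : ℕ) (F w) = NN d U s (col (F w0) : ℕ) (F w0)
    rw [hw] at h1 ⊢
    exact same_label d U s hsymm htri h1 h2 h3 (rfl : m = m)
  have hstar : (∀ z, InCube w0 z → g j z = false) ∨ (∀ z, InCube w0 z → g j z = true) := by
    by_cases ht : touch j w0
    · left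
      intro z hz
      change decide _ = false
      rw [decide_eq_false_iff_not]
      have hnz : near w0 z := by
        intro i
        rcases hz i with h | h <;> omega
      rintro (h | h)
      · obtain ⟨w', hc, hT, hle⟩ := ht
        have h4 : d (F w0) (F w') ≤ 2 * ((j : ℕ) * s) + D := by
          refine close_of_label d U s hsymm htri hbd hcov hd0 ?_
          have h5 : NN d U s (col (F w') : ℕ) (F w') = NN d U s (col (F w0) : ℕ) (F w0) := hT
          rw [hc] at h5
          exact h5.symm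
        have h6 := hlow w0 w' j
        have h7 : (j : ℕ) * s ≤ m * s := Nat.mul_le_mul_right s (le_of_lt j.isLt)
        have h8 := hnz j
        have h9 : z j = 2 * (m * s) + D + 3 := h
        omega
      · exact h.2 ⟨w0, rfl, hnz, ht⟩
    · right
      intro z hz
      change decide _ = true
      rw [decide_eq_true_iff]
      right
      have hnz : near w0 z := by
        intro i
        rcases hz i with h | h <;> omega
      constructor
      · intro hz0
        apply ht
        refine ⟨w0, rfl, rfl, ?_⟩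
        have := hnz j
        omega
      · rintro ⟨w, hcw, hnw, htw⟩
        apply ht
        have hT : T (F w) = T (F w0) := by
          refine hTnear w hcw ?_
          intro i
          have h1 := hnz i
          have h2 := hnw i
          omega
        obtain ⟨w', hc, hT', hle⟩ := htw
        exact ⟨w', hc, hT'.trans hT, hle⟩
  obtain ⟨u, v, hu, hv, hgu, hgv⟩ := hch j
  rcases hstar with h | h
  · rw [h v hv] at hgv
    exact absurd hgv (by simp)
  · rw [h u hu] at hgu
    exact absurd hgu (by simp)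

end Pool.Agent.B1d060.Asdim
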