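import Mathlib

set_option autoImplicit false

/-! Cayley graphs, word distance, bi-infinite geodesics. -/

namespace Pool.Agent.B1d060.Geo

/-- Cayley graph -/
def Cay {H : Type} [Group H] (S : Finset H) : SimpleGraph H :=
  SimpleGraph.fromRel (fun g h : H => g⁻¹ * h ∈ S)

section

variable {H : Type} [Group H] {S : Finset H}

theorem Cay_adj {g h : H} : (Cay S).Adj g h ↔ g ≠ h ∧ (g⁻¹ * h ∈ S ∨ h⁻¹ * g ∈ S) := by
  unfold Cay
  rw [SimpleGraph.fromRel_adj]

theorem reach_mul (hS : Subgroup.closure (S : Set H) = ⊤) (g : H) :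
    ∀ a : H, (Cay S).Reachable a (a * g) := by
  have hg : g ∈ Subgroup.closure (S : Set H) := by rw [hS]; trivial
  induction hg using Subgroup.closure_induction with
  | mem x hx =>
    intro a
    by_cases h1 : a = a * x
    · rw [← h1]
    · apply SimpleGraph.Adj.reachable
      rw [Cay_adj]
      refine ⟨h1, Or.inl ?_⟩
      simpa using hx
  | one => intro a; rw [mul_one]
  | mul x y _ _ hx hy =>
    intro a
    rw [← mul_assoc]
    exact (hx a).trans (hy (a * x))
  | inv x _ hx =>
    intro a
    have := hx (a * x⁻¹)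
    rw [inv_mul_cancel_right] at this
    exact this.symm

theorem connected (hS : Subgroup.closure (S : Set H) = ⊤) : (Cay S).Connected := by
  have : Nonempty H := ⟨1⟩
  refine SimpleGraph.Connected.mk (fun g h => ?_)
  have := reach_mul hS (g⁻¹ * h) g
  rwa [mul_inv_cancel_left] at this

end

/-- contracting maps between graphs -/
theorem walk_map {V W : Type} {A : SimpleGraph V} {B : SimpleGraph W} (φ : V → W)
    (hφ : ∀ u v, A.Adj u v → φ u = φ v ∨ B.Adj (φ u) (φ v)) {u v : V} (p : A.Walk u v) :
    ∃ q : B.Walk (φ u) (φ v), q.length ≤ p.length := by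
  induction p with
  | nil => exact ⟨SimpleGraph.Walk.nil, le_rfl⟩
  | cons h p ih =>
    obtain ⟨q, hq⟩ := ih
    rcases hφ _ _ h with e | e
    · refine ⟨q.copy e.symm rfl, ?_⟩
      simp only [SimpleGraph.Walk.length_copy, SimpleGraph.Walk.length_cons]
      omega
    · refine ⟨SimpleGraph.Walk.cons e q, ?_⟩
      simp only [SimpleGraph.Walk.length_cons]
      omega

theorem dist_map {V W : Type} {A : SimpleGraph V} {B : SimpleGraph W} (hA : A.Connected)
    (φ : V → W) (hφ : ∀ u v, A.Adj u v → φ u = φ v ∨ B.Adj (φ u) (φ v)) (u v : V) :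
    B.dist (φ u) (φ v) ≤ A.dist u v := by
  obtain ⟨p, hp⟩ := hA.exists_walk_length_eq_dist u v
  obtain ⟨q, hq⟩ := walk_map φ hφ p
  rw [← hp]
  exact (SimpleGraph.dist_le q).trans hq

/-- real valued (natural number valued) Lipschitz functions -/
theorem lip_of_adj {V : Type} {A : SimpleGraph V} (hA : A.Connected) (φ : V → ℕ)
    (hφ : ∀ u v, A.Adj u v → φ u ≤ φ v + 1) (u v : V) : φ u ≤ φ v + A.dist u v := by
  obtain ⟨p, hp⟩ := hA.exists_walk_length_eq_dist u v
  rw [← hp]
  clear hp
  induction p with
  | nil => simp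
  | cons h p ih =>
    have := hφ _ _ h
    simp only [SimpleGraph.Walk.length_cons]
    omega

section

variable {H : Type} [Group H] {S : Finset H}

theorem dist_left_le (hS : Subgroup.closure (S : Set H) = ⊤) (a g h : H) :
    (Cay S).dist (a * g) (a * h) ≤ (Cay S).dist g h := by
  refine dist_map (connected hS) (fun x => a * x) ?_ g h
  intro u v huv
  right
  rw [Cay_adj] at huv ⊢
  refine ⟨fun h => huv.1 (mul_left_cancel h), ?_⟩
  have e1 : (a * u)⁻¹ * (a * v) = u⁻¹ * v := by group
  have e2 : (a * v)⁻¹ * (a * u) = v⁻¹ * u := by group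
  rw [e1, e2]
  exact huv.2

theorem dist_left (hS : Subgroup.closure (S : Set H) = ⊤) (a g h : H) :
    (Cay S).dist (a * g) (a * h) = (Cay S).dist g h := by
  apply le_antisymm (dist_left_le hS a g h)
  have := dist_left_le hS a⁻¹ (a * g) (a * h)
  rwa [inv_mul_cancel_left, inv_mul_cancel_left] at this

/-- homomorphisms mapping generators to generators or to the identity are contracting -/
theorem dist_hom {K : Type} [Group K] {S' : Finset K} (hS : Subgroup.closure (S : Set H) = ⊤)
    (φ : H →* K) (hφ : ∀ s ∈ S, φ s = 1 ∨ φ s ∈ S') (g h : H) :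
    (Cay S').dist (φ g) (φ h) ≤ (Cay S).dist g h := by
  refine dist_map (connected hS) φ ?_ g h
  intro u v huv
  rw [Cay_adj] at huv
  by_cases e : φ u = φ v
  · exact Or.inl e
  · right
    rw [Cay_adj]
    refine ⟨e, ?_⟩
    rcases huv.2 with h1 | h1
    · left
      rcases hφ _ h1 with h2 | h2
      · exfalso
        apply e
        rw [map_mul, map_inv] at h2
        exact inv_mul_eq_one.mp h2
      · rwa [map_mul, map_inv] at h2
    · right
      rcases hφ _ h1 with h2 | h2
      · exfalso
        apply e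
        rw [map_mul, map_inv] at h2
        exact (inv_mul_eq_one.mp h2).symm
      · rwa [map_mul, map_inv] at h2

theorem ball_finite (hS : Subgroup.closure (S : Set H) = ⊤) (n : ℕ) :
    ∀ g : H, {h : H | (Cay S).dist g h ≤ n}.Finite := by
  have hc := connected hS
  induction n with
  | zero =>
    intro g
    refine (Set.finite_singleton g).subset ?_
    intro h hh
    have : (Cay S).dist g h = 0 := Nat.le_zero.mp hh
    exact (hc.dist_eq_zero_iff.mp this).symm
  | succ n ih =>
    intro g
    have hfin : ({g} ∪ (fun s => g * s) '' (S : Set H) ∪ (fun s => g * s⁻¹) '' (S : Set H)).Finite :=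
      ((Set.finite_singleton g).union (S.finite_toSet.image _)).union (S.finite_toSet.image _)
    refine (hfin.biUnion (fun x _ => ih x)).subset ?_
    intro h hh
    obtain ⟨p, hp⟩ := hc.exists_walk_length_eq_dist g h
    have hh' : (Cay S).dist g h ≤ n + 1 := hh
    rw [← hp] at hh'
    rw [Set.mem_iUnion₂]
    cases p with
    | nil =>
      refine ⟨g, Or.inl (Or.inl rfl), ?_⟩
      change (Cay S).dist g g ≤ n
      rw [SimpleGraph.dist_self]
      exact Nat.zero_le _
    | cons hadj q =>
      rename_i x
      refine ⟨x, ?_, ?_⟩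
      · rw [Cay_adj] at hadj
        rcases hadj.2 with h1 | h1
        · exact Or.inl (Or.inr ⟨g⁻¹ * x, h1, by simp⟩)
        · exact Or.inr ⟨x⁻¹ * g, h1, by simp⟩
      · change (Cay S).dist x h ≤ n
        simp only [SimpleGraph.Walk.length_cons] at hh'
        exact (SimpleGraph.dist_le q).trans (by omega)

/-- vertices on a shortest walk -/
theorem dist_getVert (hc : (Cay S).Connected) {u v : H} (p : (Cay S).Walk u v)
    (hp : p.length = (Cay S).dist u v) {i j : ℕ} (hij : i ≤ j) (hj : j ≤ p.length) :
    (Cay S).dist (p.getVert i) (p.getVert j) = j - i := by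
  have hstep : ∀ k, i + k ≤ p.length → (Cay S).dist (p.getVert i) (p.getVert (i + k)) ≤ k := by
    intro k
    induction k with
    | zero => intro _; simp
    | succ k ih =>
      intro hk
      have h1 := ih (by omega)
      have h2 : (Cay S).Adj (p.getVert (i + k)) (p.getVert (i + k + 1)) :=
        p.adj_getVert_succ (by omega)
      have h3 := hc.dist_triangle (u := p.getVert i) (v := p.getVert (i + k))
        (w := p.getVert (i + k + 1))
      have h4 : (Cay S).dist (p.getVert (i + k)) (p.getVert (i + k + 1)) = 1 :=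
        SimpleGraph.dist_eq_one_iff_adj.mpr h2
      have h5 : i + (k + 1) = i + k + 1 := by ring
      rw [h5]
      omega
  have hle : (Cay S).dist (p.getVert i) (p.getVert j) ≤ j - i := by
    have := hstep (j - i) (by omega)
    rwa [Nat.add_sub_cancel' hij] at this
  have hu : (Cay S).dist u (p.getVert i) ≤ i := by
    refine (SimpleGraph.dist_le (p.take i)).trans ?_
    rw [SimpleGraph.Walk.take_length]
    exact min_le_left _ _
  have hv : (Cay S).dist (p.getVert j) v ≤ p.length - j := by
    refine (SimpleGraph.dist_le (p.drop j)).trans ?_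
    rw [SimpleGraph.Walk.drop_length]
  have t1 := hc.dist_triangle (u := u) (v := p.getVert i) (w := v)
  have t2 := hc.dist_triangle (u := p.getVert i) (v := p.getVert j) (w := v)
  omega

/-- an infinite finitely generated group contains a bi-infinite geodesic through the identity -/
theorem exists_geodesic [Infinite H] (hS : Subgroup.closure (S : Set H) = ⊤) :
    ∃ γ : ℤ → H, γ 0 = 1 ∧ ∀ i j : ℤ, (Cay S).dist (γ i) (γ j) = (i - j).natAbs := by
  have hc := connected hS
  have hfar : ∀ n : ℕ, ∃ g : H, 2 * n < (Cay S).dist 1 g := by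
    intro n
    by_contra h
    push Not at h
    have : (Set.univ : Set H).Finite := (ball_finite hS (2 * n) 1).subset (fun g _ => h g)
    exact Set.infinite_univ this
  choose e he using hfar
  choose p hp using fun n => hc.exists_walk_length_eq_dist 1 (e n)
  let c : ℕ → ℤ → H := fun n k => ((p n).getVert n)⁻¹ * (p n).getVert ((n : ℤ) + k).toNat
  have hcd : ∀ n : ℕ, ∀ i j : ℤ, i.natAbs ≤ n → j.natAbs ≤ n →
      (Cay S).dist (c n i) (c n j) = (i - j).natAbs := by
    intro n i j hi hj
    change (Cay S).dist (((p n).getVert n)⁻¹ * (p n).getVert ((n : ℤ) + i).toNat)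
      (((p n).getVert n)⁻¹ * (p n).getVert ((n : ℤ) + j).toNat) = _
    rw [dist_left hS]
    have hlen := hp n
    have hbig := he n
    rcases le_total i j with h | h
    · rw [dist_getVert hc (p n) (hp n) (i := ((n : ℤ) + i).toNat) (j := ((n : ℤ) + j).toNat)
        (by omega) (by omega)]
      omega
    · rw [SimpleGraph.dist_comm, dist_getVert hc (p n) (hp n) (i := ((n : ℤ) + j).toNat)
        (j := ((n : ℤ) + i).toNat) (by omega) (by omega)]
      omega
  have hc0 : ∀ n, c n 0 = 1 := by
    intro n
    change ((p n).getVert n)⁻¹ * (p n).getVert ((n : ℤ) + 0).toNat = 1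
    have : ((n : ℤ) + 0).toNat = n := by omega
    rw [this, inv_mul_cancel]
  let U : Ultrafilter ℕ := Filter.hyperfilter ℕ
  have hge : ∀ m : ℕ, ∀ᶠ n in (U : Filter ℕ), m ≤ n := by
    intro m
    exact (Filter.eventually_ge_atTop m).filter_mono Nat.hyperfilter_le_atTop
  have hlim : ∀ k : ℤ, ∃ h : H, ∀ᶠ n in (U : Filter ℕ), c n k = h := by
    intro k
    have hev : ∀ᶠ n in (U : Filter ℕ), ∃ h ∈ {h : H | (Cay S).dist 1 h ≤ k.natAbs}, c n k = h := by
      filter_upwards [hge k.natAbs] with n hn
      refine ⟨c n k, ?_, rfl⟩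
      change (Cay S).dist 1 (c n k) ≤ k.natAbs
      rw [← hc0 n, hcd n 0 k (by simp) hn]
      omega
    rw [Ultrafilter.eventually_exists_mem_iff (ball_finite hS k.natAbs 1)] at hev
    obtain ⟨h, _, hh⟩ := hev
    exact ⟨h, hh⟩
  choose γ hγ using hlim
  refine ⟨γ, ?_, ?_⟩
  · obtain ⟨n, hn⟩ := (hγ 0).exists
    rw [← hn, hc0]
  · intro i j
    obtain ⟨n, hn⟩ := (((hγ i).and (hγ j)).and ((hge i.natAbs).and (hge j.natAbs))).exists
    rw [← hn.1.1, ← hn.1.2]
    exact hcd n i j hn.2.1 hn.2.2

end

end Pool.Agent.B1d060.Geo
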