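import Mathlib
import Pool.Agent.B1d060.Geo

set_option autoImplicit false

/-! The extension `FreeGroup (Q ⧸ C) ⋊ Q`, i.e. the HNN extension of `Q` in which the stable
letter centralises `C`. -/

namespace Pool.Agent.B1d060.Ext

open Pool.Agent.B1d060.Geo

theorem free_comm {β : Type} (hcomm : ∀ a b : FreeGroup β, a * b = b * a) :
    Subsingleton β := by
  classical
  constructor
  intro x y
  by_contra hxy
  let F : FreeGroup β →* Equiv.Perm (Fin 3) :=
    FreeGroup.lift (fun z => if z = x then Equiv.swap 0 1 else Equiv.swap 1 2)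
  have h := congrArg F (hcomm (FreeGroup.of x) (FreeGroup.of y))
  rw [map_mul, map_mul] at h
  have hx : F (FreeGroup.of x) = Equiv.swap 0 1 := by simp [F]
  have hy : F (FreeGroup.of y) = Equiv.swap 1 2 := by
    have : ¬ y = x := fun e => hxy e.symm
    simp [F, this]
  rw [hx, hy] at h
  revert h
  decide

theorem free_rank_one {β : Type} [Subsingleton β] (x : β) (a : FreeGroup β) :
    ∃ i : ℤ, a = FreeGroup.of x ^ i := by
  induction a using FreeGroup.induction_on with
  | C1 => exact ⟨0, by simp⟩
  | of y => exact ⟨1, by rw [Subsingleton.elim y x, zpow_one]⟩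
  | inv_of y _ => exact ⟨-1, by rw [Subsingleton.elim y x, zpow_neg, zpow_one]⟩
  | mul a b ha hb =>
    obtain ⟨i, rfl⟩ := ha
    obtain ⟨j, rfl⟩ := hb
    exact ⟨i + j, by rw [zpow_add]⟩

theorem no_rank_two {β : Type} (a b : FreeGroup β) (hab : a * b = b * a)
    (h : ∀ m n : ℤ, a ^ m * b ^ n = 1 → m = 0 ∧ n = 0) : False := by
  let K : Subgroup (FreeGroup β) := Subgroup.closure {a, b}
  have hK : ∀ x ∈ K, ∀ y ∈ K, x * y = y * x := by
    have hcomm : ∀ x ∈ ({a, b} : Set (FreeGroup β)), ∀ y ∈ ({a, b} : Set (FreeGroup β)),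
        x * y = y * x := by
      intro x hx y hy
      rcases hx with rfl | hx
      · rcases hy with rfl | hy
        · rfl
        · rw [Set.mem_singleton_iff] at hy; subst hy; exact hab
      · rw [Set.mem_singleton_iff] at hx
        subst hx
        rcases hy with rfl | hy
        · exact hab.symm
        · rw [Set.mem_singleton_iff] at hy; subst hy; rfl
    have h1 : K ≤ Subgroup.centralizer ({a, b} : Set (FreeGroup β)) := by
      rw [Subgroup.closure_le]
      intro x hx
      rw [SetLike.mem_coe, Subgroup.mem_centralizer_iff]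
      intro y hy
      exact hcomm y hy x hx
    have h2 : ∀ x ∈ K, x ∈ Subgroup.centralizer (K : Set (FreeGroup β)) := by
      intro x hx
      have h3 : K ≤ Subgroup.centralizer {x} := by
        rw [Subgroup.closure_le]
        intro y hy
        rw [SetLike.mem_coe, Subgroup.mem_centralizer_iff]
        intro z hz
        rw [Set.mem_singleton_iff] at hz
        subst hz
        have := Subgroup.mem_centralizer_iff.mp (h1 hx) y hy
        exact this.symm
      rw [Subgroup.mem_centralizer_iff]
      intro y hy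
      have := Subgroup.mem_centralizer_iff.mp (h3 hy) x (Set.mem_singleton x)
      exact this.symm
    intro x hx y hy
    exact (Subgroup.mem_centralizer_iff.mp (h2 x hx) y hy).symm
  have : IsFreeGroup K := inferInstance
  let e : FreeGroup (IsFreeGroup.Generators K) ≃* K := IsFreeGroup.mulEquiv K
  have hc : ∀ x y : FreeGroup (IsFreeGroup.Generators K), x * y = y * x := by
    intro x y
    apply e.injective
    rw [map_mul, map_mul]
    exact Subtype.ext (hK _ (e x).2 _ (e y).2)
  have := free_comm hc
  have haK : a ∈ K := Subgroup.subset_closure (by simp)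
  have hbK : b ∈ K := Subgroup.subset_closure (by simp)
  let a' := e.symm ⟨a, haK⟩
  let b' := e.symm ⟨b, hbK⟩
  have key : ∀ m n : ℤ, a' ^ m * b' ^ n = 1 → m = 0 ∧ n = 0 := by
    intro m n hmn
    apply h
    have h1 := congrArg e hmn
    rw [map_mul, map_zpow, map_zpow, map_one] at h1
    have h2 : e a' = ⟨a, haK⟩ := e.apply_symm_apply _
    have h3 : e b' = ⟨b, hbK⟩ := e.apply_symm_apply _
    rw [h2, h3] at h1
    have h4 := congrArg (Subtype.val) h1
    simpa using h4
  rcases isEmpty_or_nonempty (IsFreeGroup.Generators K) with hE | ⟨⟨x⟩⟩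
  · have h1 : a' = 1 := Subsingleton.elim _ _
    have := key 1 0 (by rw [h1]; simp)
    omega
  · obtain ⟨i, hi⟩ := free_rank_one x a'
    obtain ⟨j, hj⟩ := free_rank_one x b'
    have h1 := key j (-i) (by
      rw [hi, hj, ← zpow_mul, ← zpow_mul, ← zpow_add]
      have : i * j + j * -i = 0 := by ring
      rw [this, zpow_zero])
    have hj0 : j = 0 := h1.1
    have h2 := key 0 1 (by rw [hj, hj0]; simp)
    omega

section

variable {Q : Type} [Group Q] (C : Subgroup Q)

/-- the action of `Q` on the free group on the cosets of `C` -/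
def act : Q →* MulAut (FreeGroup (Q ⧸ C)) where
  toFun q := FreeGroup.freeGroupCongr (MulAction.toPerm q)
  map_one' := by
    ext x
    change FreeGroup.map (⇑(MulAction.toPerm (1 : Q)) : Q ⧸ C → Q ⧸ C) x = x
    have h : (⇑(MulAction.toPerm (1 : Q)) : Q ⧸ C → Q ⧸ C) = id := by
      funext y
      exact one_smul Q y
    rw [h, FreeGroup.map.id]
  map_mul' := by
    intro a b
    ext x
    change FreeGroup.map (⇑(MulAction.toPerm (a * b)) : Q ⧸ C → Q ⧸ C) x =
      FreeGroup.map (⇑(MulAction.toPerm a) : Q ⧸ C → Q ⧸ C)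
        (FreeGroup.map (⇑(MulAction.toPerm b) : Q ⧸ C → Q ⧸ C) x)
    rw [FreeGroup.map.comp]
    have h : (⇑(MulAction.toPerm (a * b)) : Q ⧸ C → Q ⧸ C) =
        (⇑(MulAction.toPerm a) : Q ⧸ C → Q ⧸ C) ∘ (⇑(MulAction.toPerm b) : Q ⧸ C → Q ⧸ C) := by
      funext y
      exact mul_smul a b y
    rw [h]

abbrev GG : Type := FreeGroup (Q ⧸ C) ⋊[act C] Q

theorem act_of (q : Q) (x : Q ⧸ C) : act C q (FreeGroup.of x) = FreeGroup.of (q • x) := by
  simp [act]

/-- the base coset -/
def c0 : Q ⧸ C := ((1 : Q) : Q ⧸ C)

theorem smul_c0 (q : Q) : q • c0 C = (q : Q ⧸ C) := by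
  unfold c0
  rw [MulAction.Quotient.smul_coe, smul_eq_mul, mul_one]

/-- the stable letter -/
def tt : GG C := SemidirectProduct.inl (FreeGroup.of (c0 C))

theorem tt_mul_left (g : GG C) : (g * tt C).left = g.left * FreeGroup.of (g.right : Q ⧸ C) := by
  unfold tt
  rw [SemidirectProduct.mul_left, SemidirectProduct.left_inl, act_of, smul_c0]

theorem tt_mul_right (g : GG C) : (g * tt C).right = g.right := by
  unfold tt
  rw [SemidirectProduct.mul_right, SemidirectProduct.right_inl, mul_one]

theorem inr_mul_left (g : GG C) (q : Q) :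
    (g * (SemidirectProduct.inr q : GG C)).left = g.left := by
  rw [SemidirectProduct.mul_left, SemidirectProduct.left_inr, map_one, mul_one]

/-- no free abelian subgroup of rank two -/
theorem no_Z2 (hQ : ∀ q : Q, IsOfFinOrder q) (a b : GG C) (hab : a * b = b * a)
    (h : ∀ m n : ℤ, a ^ m * b ^ n = 1 → m = 0 ∧ n = 0) : False := by
  obtain ⟨k, hk, hka⟩ := isOfFinOrder_iff_pow_eq_one.mp (hQ a.right)
  obtain ⟨l, hl, hlb⟩ := isOfFinOrder_iff_pow_eq_one.mp (hQ b.right)
  have h1 : ∀ g : GG C, g.right = 1 → g = SemidirectProduct.inl g.left := by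
    intro g hg
    apply SemidirectProduct.ext
    · simp
    · simpa using hg
  have hpr : ∀ (g : GG C) (n : ℕ), (g ^ n).right = g.right ^ n := by
    intro g n
    exact map_pow (SemidirectProduct.rightHom : GG C →* Q) g n
  have ha : a ^ k = SemidirectProduct.inl (a ^ k).left := h1 _ (by rw [hpr, hka])
  have hb : b ^ l = SemidirectProduct.inl (b ^ l).left := h1 _ (by rw [hpr, hlb])
  refine no_rank_two (a ^ k).left (b ^ l).left ?_ ?_
  · apply SemidirectProduct.inl_injective (φ := act C)
    rw [map_mul, map_mul, ← ha, ← hb]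
    exact (Commute.pow_pow hab k l)
  · intro m n hmn
    have h2 : a ^ ((k : ℤ) * m) * b ^ ((l : ℤ) * n) = 1 := by
      rw [zpow_mul, zpow_mul, zpow_natCast, zpow_natCast, ha, hb, ← map_zpow, ← map_zpow,
        ← map_mul, hmn, map_one]
    obtain ⟨h3, h4⟩ := h _ _ h2
    constructor
    · rcases mul_eq_zero.mp h3 with h5 | h5
      · omega
      · exact h5
    · rcases mul_eq_zero.mp h4 with h5 | h5
      · omega
      · exact h5

variable (SQ : Finset Q)

open Classical in
/-- generators -/
noncomputable def SG : Finset (GG C) :=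
  SQ.image (fun q => (SemidirectProduct.inr q : GG C)) ∪ {tt C}

theorem mem_SG (g : GG C) : g ∈ SG C SQ ↔ (∃ q ∈ SQ, SemidirectProduct.inr q = g) ∨ g = tt C := by
  classical
  unfold SG
  rw [Finset.mem_union, Finset.mem_image, Finset.mem_singleton]

theorem closure_SG (hS : Subgroup.closure (SQ : Set Q) = ⊤) :
    Subgroup.closure (SG C SQ : Set (GG C)) = ⊤ := by
  rw [eq_top_iff]
  have hinr : ∀ q : Q, (SemidirectProduct.inr q : GG C) ∈ Subgroup.closure (SG C SQ : Set (GG C)) := by
    intro q
    have hq : q ∈ Subgroup.closure (SQ : Set Q) := by rw [hS]; trivial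
    induction hq using Subgroup.closure_induction with
    | mem x hx =>
      apply Subgroup.subset_closure
      rw [Finset.mem_coe, mem_SG]
      exact Or.inl ⟨x, hx, rfl⟩
    | one => rw [map_one]; exact one_mem _
    | mul x y _ _ hx hy => rw [map_mul]; exact mul_mem hx hy
    | inv x _ hx => rw [map_inv]; exact inv_mem hx
  have hinl : ∀ w : FreeGroup (Q ⧸ C),
      (SemidirectProduct.inl w : GG C) ∈ Subgroup.closure (SG C SQ : Set (GG C)) := by
    intro w
    have hof : ∀ x : Q ⧸ C, (SemidirectProduct.inl (FreeGroup.of x) : GG C) ∈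
        Subgroup.closure (SG C SQ : Set (GG C)) := by
      intro x
      induction x using QuotientGroup.induction_on with
      | H q =>
      have h1 : (SemidirectProduct.inl (FreeGroup.of (q : Q ⧸ C)) : GG C) =
          SemidirectProduct.inr q * tt C * SemidirectProduct.inr q⁻¹ := by
        unfold tt
        rw [← SemidirectProduct.inl_aut, act_of, smul_c0]
      rw [h1]
      refine mul_mem (mul_mem (hinr q) ?_) (hinr q⁻¹)
      apply Subgroup.subset_closure
      rw [Finset.mem_coe, mem_SG]
      exact Or.inr rfl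
    induction w using FreeGroup.induction_on with
    | C1 => rw [map_one]; exact one_mem _
    | of x => exact hof x
    | inv_of x _ => rw [map_inv]; exact inv_mem (hof x)
    | mul x y hx hy => rw [map_mul]; exact mul_mem hx hy
  intro g _
  rw [← SemidirectProduct.inl_left_mul_inr_right g]
  exact mul_mem (hinl _) (hinr _)

end

end Pool.Agent.B1d060.Ext
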