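import Mathlib
import Pool.Agent.B1d060.Ext

set_option autoImplicit false

/-! Separation in the extension `FreeGroup (Q ⧸ C) ⋊ Q`. -/

namespace Pool.Agent.B1d060.Sep

open Pool.Agent.B1d060.Geo Pool.Agent.B1d060.Ext

/-- effect of left multiplication by a letter on the last letter of the reduced word -/
theorem getLast_mul {β : Type} [DecidableEq β] (x : β) (b : Bool) (W : FreeGroup β) (c : β × Bool)
    (h1 : W.toWord.getLast? = some c)
    (h2 : (FreeGroup.mk [(x, b)] * W).toWord.getLast? ≠ some c) :
    FreeGroup.mk [(x, b)] * W = 1 ∧ c = (x, !b) := by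
  have e : (FreeGroup.mk [(x, b)] * W).toWord = FreeGroup.reduce ((x, b) :: W.toWord) := by
    rw [FreeGroup.toWord_mul, FreeGroup.toWord_mk]
    rfl
  rw [FreeGroup.reduce.cons, FreeGroup.reduce_toWord] at e
  cases hW : W.toWord with
  | nil => rw [hW] at h1; simp at h1
  | cons hd tl =>
    rw [hW] at e h1
    simp only at e
    split_ifs at e with hc
    · cases tl with
      | nil =>
        constructor
        · rw [← FreeGroup.toWord_eq_nil_iff, e]
        · simp only [List.getLast?_singleton, Option.some.injEq] at h1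
          rw [← h1]
          obtain ⟨h3, h4⟩ := hc
          ext
          · exact h3.symm
          · rw [h4]; simp
      | cons hd' tl' =>
        exfalso
        apply h2
        rw [e]
        rw [List.getLast?_cons_cons] at h1
        exact h1
    · exfalso
      apply h2
      rw [e, List.getLast?_cons_cons]
      exact h1

section

variable {Q : Type} [Group Q] (C : Subgroup Q) (SQ : Finset Q)

open Classical in
/-- the part of the extension beyond the base coset -/
def InE (g : GG C) : Prop := (g.left⁻¹).toWord.getLast? = some (c0 C, false)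

theorem exit_E {g g' : GG C} (hadj : (Cay (SG C SQ)).Adj g g') (hg : InE C g)
    (hg' : ¬ InE C g') : g'.left = 1 ∧ g'.right ∈ C := by
  classical
  rw [Cay_adj] at hadj
  have hstep : ∀ a b : GG C, a⁻¹ * b ∈ SG C SQ → b.left = a.left ∨
      (b.left = a.left * FreeGroup.of (a.right : Q ⧸ C) ∧ b.right = a.right) := by
    intro a b hab
    rw [mem_SG] at hab
    rcases hab with ⟨q, _, hq⟩ | ht
    · left
      have : b = a * SemidirectProduct.inr q := by rw [hq]; group
      rw [this, inr_mul_left]
    · right
      have : b = a * tt C := by rw [← ht]; group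
      rw [this]
      exact ⟨tt_mul_left C a, tt_mul_right C a⟩
  unfold InE at hg hg'
  rcases hadj.2 with h | h
  · rcases hstep g g' h with h1 | ⟨h1, _⟩
    · rw [h1] at hg'; exact absurd hg hg'
    · rw [h1, mul_inv_rev] at hg'
      have h2 : (FreeGroup.of (g.right : Q ⧸ C))⁻¹ =
          FreeGroup.mk [((g.right : Q ⧸ C), false)] := rfl
      rw [h2] at hg'
      obtain ⟨_, h4⟩ := getLast_mul (g.right : Q ⧸ C) false g.left⁻¹ (c0 C, false) hg hg'
      simp only [Prod.mk.injEq] at h4
      exact absurd h4.2 (by simp)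
  · rcases hstep g' g h with h1 | ⟨h1, h5⟩
    · rw [← h1] at hg'; exact absurd hg hg'
    · have h6 : g'.left⁻¹ = FreeGroup.mk [((g'.right : Q ⧸ C), true)] * g.left⁻¹ := by
        rw [h1, mul_inv_rev]
        change _ = FreeGroup.of (g'.right : Q ⧸ C) * _
        rw [mul_inv_cancel_left]
      rw [h6] at hg'
      obtain ⟨h3, h4⟩ := getLast_mul (g'.right : Q ⧸ C) true g.left⁻¹ (c0 C, false) hg hg'
      constructor
      · rw [← h6] at h3
        exact inv_eq_one.mp h3
      · simp only [Prod.mk.injEq] at h4
        have h7 : ((1 : Q) : Q ⧸ C) = (g'.right : Q ⧸ C) := h4.1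
        rw [QuotientGroup.eq] at h7
        simpa using h7

theorem walk_exit {g g' : GG C} (p : (Cay (SG C SQ)).Walk g g') (hg : InE C g)
    (hg' : ¬ InE C g') : ∃ v ∈ p.support, v.left = 1 ∧ v.right ∈ C := by
  induction p with
  | nil => exact absurd hg hg'
  | cons h p ih =>
    rename_i u v w
    by_cases hv : InE C v
    · obtain ⟨x, hx, hx'⟩ := ih hv hg'
      exact ⟨x, by simp [hx], hx'⟩
    · exact ⟨v, by simp, exit_E C SQ h hg hv⟩

theorem norm_step {g g' : GG C} (hadj : (Cay (SG C SQ)).Adj g g') :
    (open Classical in g.left.norm) ≤ (open Classical in g'.left.norm) + 1 := by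
  classical
  rw [Cay_adj] at hadj
  have hstep : ∀ a b : GG C, a⁻¹ * b ∈ SG C SQ → b.left = a.left ∨
      (b.left = a.left * FreeGroup.of (a.right : Q ⧸ C)) := by
    intro a b hab
    rw [mem_SG] at hab
    rcases hab with ⟨q, _, hq⟩ | ht
    · left
      have : b = a * SemidirectProduct.inr q := by rw [hq]; group
      rw [this, inr_mul_left]
    · right
      have : b = a * tt C := by rw [← ht]; group
      rw [this]
      exact tt_mul_left C a
  rcases hadj.2 with h | h
  · rcases hstep g g' h with h1 | h1
    · rw [h1]; omega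
    · have h2 : g.left = g'.left * (FreeGroup.of (g.right : Q ⧸ C))⁻¹ := by
        rw [h1]; group
      calc g.left.norm = (g'.left * (FreeGroup.of (g.right : Q ⧸ C))⁻¹).norm := by rw [← h2]
        _ ≤ g'.left.norm + ((FreeGroup.of (g.right : Q ⧸ C))⁻¹).norm := FreeGroup.norm_mul_le _ _
        _ = g'.left.norm + 1 := by rw [FreeGroup.norm_inv_eq, FreeGroup.norm_of]
  · rcases hstep g' g h with h1 | h1
    · rw [h1]; omega
    · calc g.left.norm = (g'.left * FreeGroup.of (g'.right : Q ⧸ C)).norm := by rw [← h1]
        _ ≤ g'.left.norm + (FreeGroup.of (g'.right : Q ⧸ C)).norm := FreeGroup.norm_mul_le _ _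
        _ = g'.left.norm + 1 := by rw [FreeGroup.norm_of]

theorem norm_le_dist (hS : Subgroup.closure (SQ : Set Q) = ⊤) (g g' : GG C) :
    (open Classical in g.left.norm) ≤ (open Classical in g'.left.norm) +
      (Cay (SG C SQ)).dist g g' :=
  lip_of_adj (connected (closure_SG C SQ hS)) (fun g : GG C => (open Classical in g.left.norm))
    (fun _ _ h => norm_step C SQ h) g g'

/-- the coarse separation statement -/
theorem separates (hS : Subgroup.closure (SQ : Set Q) = ⊤) {I : Type} (f : I → GG C) (L : ℕ)
    (hf : ∀ z, (f z).left = 1)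
    (hC : ∀ c ∈ C, ∃ z, (Cay (SG C SQ)).dist (SemidirectProduct.inr c) (f z) ≤ L) :
    ∀ D : ℕ, ∃ x y : GG C,
      (∀ z, L + D < (Cay (SG C SQ)).dist x (f z)) ∧ (∀ z, L + D < (Cay (SG C SQ)).dist y (f z)) ∧
      ¬ ∃ p : (Cay (SG C SQ)).Walk x y, ∀ v ∈ p.support, ∀ z, L < (Cay (SG C SQ)).dist v (f z) := by
  classical
  intro D
  let w : FreeGroup (Q ⧸ C) := FreeGroup.of (c0 C) ^ (L + D + 1)
  refine ⟨SemidirectProduct.inl w, SemidirectProduct.inl w⁻¹, ?_, ?_, ?_⟩
  · intro z
    have h := norm_le_dist C SQ hS (SemidirectProduct.inl w) (f z)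
    rw [hf z, SemidirectProduct.left_inl, FreeGroup.norm_one] at h
    have h2 : w.norm = L + D + 1 := FreeGroup.norm_of_pow _ _
    rw [h2] at h
    omega
  · intro z
    have h := norm_le_dist C SQ hS (SemidirectProduct.inl w⁻¹) (f z)
    rw [hf z, SemidirectProduct.left_inl, FreeGroup.norm_one, FreeGroup.norm_inv_eq] at h
    have h2 : w.norm = L + D + 1 := FreeGroup.norm_of_pow _ _
    rw [h2] at h
    omega
  · rintro ⟨p, hp⟩
    have hw : w.toWord = List.replicate (L + D + 1) (c0 C, true) := FreeGroup.toWord_of_pow _ _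
    have h1 : InE C (SemidirectProduct.inl w : GG C) := by
      unfold InE
      rw [SemidirectProduct.left_inl, FreeGroup.toWord_inv, hw]
      simp [FreeGroup.invRev, List.getLast?_replicate]
    have h2 : ¬ InE C (SemidirectProduct.inl w⁻¹ : GG C) := by
      unfold InE
      rw [SemidirectProduct.left_inl, inv_inv, hw]
      simp [List.getLast?_replicate]
    obtain ⟨v, hv, hv1, hv2⟩ := walk_exit C SQ p h1 h2
    obtain ⟨z, hz⟩ := hC v.right hv2
    have h3 := hp v hv z
    have h4 : v = SemidirectProduct.inr v.right := by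
      apply SemidirectProduct.ext
      · simpa using hv1
      · simp
    rw [h4] at h3
    omega

/-- lower bound for distances from the projection -/
theorem dist_right_le (hS : Subgroup.closure (SQ : Set Q) = ⊤) (g g' : GG C) :
    (Cay SQ).dist g.right g'.right ≤ (Cay (SG C SQ)).dist g g' := by
  refine dist_hom (closure_SG C SQ hS) (SemidirectProduct.rightHom : GG C →* Q) ?_ g g'
  intro s hs
  rw [mem_SG] at hs
  rcases hs with ⟨q, hq, rfl⟩ | rfl
  · right
    simpa using hq
  · left
    simp [tt]

theorem dist_inr_le (hS : Subgroup.closure (SQ : Set Q) = ⊤) (a b : Q) :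
    (Cay (SG C SQ)).dist (SemidirectProduct.inr a) (SemidirectProduct.inr b) ≤
      (Cay SQ).dist a b := by
  refine dist_hom hS (SemidirectProduct.inr : Q →* GG C) ?_ a b
  intro s hs
  right
  rw [mem_SG]
  exact Or.inl ⟨s, hs, rfl⟩

theorem dist_inr (hS : Subgroup.closure (SQ : Set Q) = ⊤) (a b : Q) :
    (Cay (SG C SQ)).dist (SemidirectProduct.inr a) (SemidirectProduct.inr b) =
      (Cay SQ).dist a b := by
  apply le_antisymm (dist_inr_le C SQ hS a b)
  have := dist_right_le C SQ hS (SemidirectProduct.inr a) (SemidirectProduct.inr b)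
  simpa using this

end

end Pool.Agent.B1d060.Sep
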