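import Mathlib
import Pool.Agent.B1d060.Sep
import Pool.Agent.B1d060.Asdim

set_option autoImplicit false

/-! Assembly of the counterexample from a torsion group with suitable coarse embeddings. -/

namespace Pool.Agent.B1d060.Assemble

open Filter
open Pool.Agent.B1d060.Geo Pool.Agent.B1d060.Ext Pool.Agent.B1d060.Sep

theorem pair_of_equiv {G : Type} [Group G] (K : Subgroup G) {k : ℕ} (hk : 2 ≤ k)
    (e : K ≃* Multiplicative (Fin k → ℤ)) :
    ∃ a b : G, a * b = b * a ∧ ∀ m n : ℤ, a ^ m * b ^ n = 1 → m = 0 ∧ n = 0 := by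
  let i0 : Fin k := ⟨0, by omega⟩
  let i1 : Fin k := ⟨1, by omega⟩
  have h01 : i0 ≠ i1 := by
    intro h
    have := congrArg Fin.val h
    simp [i0, i1] at this
  let a : K := e.symm (Multiplicative.ofAdd (Pi.single i0 (1 : ℤ)))
  let b : K := e.symm (Multiplicative.ofAdd (Pi.single i1 (1 : ℤ)))
  refine ⟨a, b, ?_, ?_⟩
  · have h : a * b = b * a := by
      apply e.injective
      rw [map_mul, map_mul, mul_comm]
    exact congrArg Subtype.val h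
  · intro m n hmn
    have h1 : a ^ m * b ^ n = 1 := Subtype.ext hmn
    have h2 := congrArg e h1
    rw [map_mul, map_zpow, map_zpow, map_one] at h2
    have ha : e a = Multiplicative.ofAdd (Pi.single i0 (1 : ℤ)) := e.apply_symm_apply _
    have hb : e b = Multiplicative.ofAdd (Pi.single i1 (1 : ℤ)) := e.apply_symm_apply _
    rw [ha, hb, ← ofAdd_zsmul, ← ofAdd_zsmul, ← ofAdd_add] at h2
    have h3 : m • (Pi.single i0 (1 : ℤ) : Fin k → ℤ) + n • (Pi.single i1 (1 : ℤ) : Fin k → ℤ) = 0 :=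
      Multiplicative.ofAdd.injective h2
    constructor
    · have h4 := congrFun h3 i0
      simpa [Pi.single_apply, h01] using h4
    · have h4 := congrFun h3 i1
      simpa [Pi.single_apply, h01.symm] using h4

theorem no_tree {G : Type} [Group G] {k : ℕ} (hk : 2 ≤ k)
    (hG : ∀ a b : G, a * b = b * a → (∀ m n : ℤ, a ^ m * b ^ n = 1 → m = 0 ∧ n = 0) → False) :
    ¬ ∃ (T : Type) (Γt : SimpleGraph T) (ρ : G →* Equiv.Perm T),
        Γt.IsTree ∧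
        (∀ g u v, Γt.Adj u v → Γt.Adj (ρ g u) (ρ g v)) ∧
        (∀ g u v, Γt.Adj u v → ¬ (ρ g u = v ∧ ρ g v = u)) ∧
        (∀ v, ∃ g, ρ g v ≠ v) ∧
        ∀ u v, Γt.Adj u v → ∀ H : Subgroup G, (∀ g, g ∈ H ↔ (ρ g u = u ∧ ρ g v = v)) →
          ∃ K : Subgroup G, K ≤ H ∧ (K.subgroupOf H).index ≠ 0 ∧
            Nonempty (K ≃* Multiplicative (Fin k → ℤ)) := by
  rintro ⟨T, Γt, ρ, hT, _, _, hfix, hst⟩
  have hconn := hT.connected
  obtain ⟨v⟩ := hconn.nonempty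
  obtain ⟨g, hg⟩ := hfix v
  obtain ⟨p⟩ := hconn.preconnected (ρ g v) v
  have key : ∀ x y : T, Γt.Walk x y → x ≠ y → ∃ u, Γt.Adj x u := by
    intro x y p h
    cases p with
    | nil => exact absurd rfl h
    | cons hadj q => exact ⟨_, hadj⟩
  obtain ⟨u, hadj⟩ := key _ _ p hg
  let H : Subgroup G :=
    { carrier := {x | ρ x (ρ g v) = ρ g v ∧ ρ x u = u}
      one_mem' := by simp
      mul_mem' := by
        intro a b ha hb
        obtain ⟨ha1, ha2⟩ := ha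
        obtain ⟨hb1, hb2⟩ := hb
        constructor
        · rw [map_mul, Equiv.Perm.mul_apply, hb1, ha1]
        · rw [map_mul, Equiv.Perm.mul_apply, hb2, ha2]
      inv_mem' := by
        intro a ha
        obtain ⟨ha1, ha2⟩ := ha
        constructor
        · rw [map_inv, Equiv.Perm.inv_eq_iff_eq]; exact ha1.symm
        · rw [map_inv, Equiv.Perm.inv_eq_iff_eq]; exact ha2.symm }
  obtain ⟨K, _, _, ⟨e⟩⟩ := hst _ _ hadj H (fun x => Iff.rfl)
  obtain ⟨a, b, hab, h⟩ := pair_of_equiv K hk e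
  exact hG a b hab h

/-- the statement of the problem for fixed `n` -/
def Stmt (n : ℕ) : Prop :=
  ∀ (G : Type) [Group G] (S : Finset G),
      Subgroup.closure (S : Set G) = ⊤ →
      ∀ Γ : SimpleGraph G, Γ = SimpleGraph.fromRel (fun g h : G => g⁻¹ * h ∈ S) →
      (¬ ∀ r : ℕ, ∃ (ι : Type) (U : ι → Set G) (D : ℕ),
          (∀ x : G, ∃ i, x ∈ U i) ∧
          (∀ i, ∀ x ∈ U i, ∀ y ∈ U i, Γ.dist x y ≤ D) ∧
          ∀ x : G, {i : ι | ∃ y ∈ U i, Γ.dist x y ≤ r}.encard ≤ (n : ℕ∞)) →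
      (∃ f : (Fin (n - 2) → ℤ) → G,
          (∃ ρ : ℕ → ℕ, ∀ a b, Γ.dist (f a) (f b) ≤ ρ (∑ i, |a i - b i|).toNat) ∧
          (∃ ρ : ℕ → ℕ, Tendsto ρ atTop atTop ∧
              ∀ a b, ρ (∑ i, |a i - b i|).toNat ≤ Γ.dist (f a) (f b)) ∧
          (∃ L : ℕ, ∀ D : ℕ, ∃ x y : G,
              (∀ z, L + D < Γ.dist x (f z)) ∧ (∀ z, L + D < Γ.dist y (f z)) ∧
              ¬ ∃ p : Γ.Walk x y, ∀ v ∈ p.support, ∀ z, L < Γ.dist v (f z))) →
      ∃ (T : Type) (Γt : SimpleGraph T) (ρ : G →* Equiv.Perm T),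
        Γt.IsTree ∧
        (∀ g u v, Γt.Adj u v → Γt.Adj (ρ g u) (ρ g v)) ∧
        (∀ g u v, Γt.Adj u v → ¬ (ρ g u = v ∧ ρ g v = u)) ∧
        (∀ v, ∃ g, ρ g v ≠ v) ∧
        ∀ u v, Γt.Adj u v → ∀ H : Subgroup G, (∀ g, g ∈ H ↔ (ρ g u = u ∧ ρ g v = v)) →
          ∃ K : Subgroup G, K ≤ H ∧ (K.subgroupOf H).index ≠ 0 ∧
            Nonempty (K ≃* Multiplicative (Fin (n - 2) → ℤ))

theorem not_Stmt (n : ℕ) (hn : 3 < n) {Q : Type} [Group Q] (C : Subgroup Q) (SQ : Finset Q)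
    (hS : Subgroup.closure (SQ : Set Q) = ⊤) (htor : ∀ q : Q, IsOfFinOrder q)
    (s : ℕ) (F : (Fin n → ℕ) → Q)
    (hup : ∀ z w : Fin n → ℕ, (∀ i, z i ≤ w i + 2 ∧ w i ≤ z i + 2) → (Cay SQ).dist (F z) (F w) ≤ s)
    (hlow : ∀ z w : Fin n → ℕ, ∀ i, z i ≤ w i + (Cay SQ).dist (F z) (F w))
    (f : (Fin (n - 2) → ℤ) → Q)
    (hf1 : ∃ ρ : ℕ → ℕ, ∀ a b, (Cay SQ).dist (f a) (f b) ≤ ρ (∑ i, |a i - b i|).toNat)
    (hf2 : ∃ ρ : ℕ → ℕ, Tendsto ρ atTop atTop ∧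
              ∀ a b, ρ (∑ i, |a i - b i|).toNat ≤ (Cay SQ).dist (f a) (f b))
    (L : ℕ) (hC : ∀ c ∈ C, ∃ z, (Cay SQ).dist c (f z) ≤ L) : ¬ Stmt n := by
  intro h
  have hSG := closure_SG C SQ hS
  have hconn := connected hSG
  refine no_tree (k := n - 2) (by omega) (fun a b hab h => no_Z2 C htor a b hab h)
    (h (GG C) (SG C SQ) hSG (Cay (SG C SQ)) rfl ?_ ⟨fun z => SemidirectProduct.inr (f z), ?_, ?_,
      L, ?_⟩)
  · refine Asdim.no_cover (fun x y => (Cay (SG C SQ)).dist x y) (fun x => SimpleGraph.dist_self)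
      (fun x y => SimpleGraph.dist_comm) (fun x y z => hconn.dist_triangle) s
      (fun z => SemidirectProduct.inr (F z)) ?_ ?_
    · intro z w hzw
      rw [dist_inr C SQ hS]
      exact hup z w hzw
    · intro z w i
      rw [dist_inr C SQ hS]
      exact hlow z w i
  · obtain ⟨ρ, hρ⟩ := hf1
    refine ⟨ρ, fun a b => ?_⟩
    rw [dist_inr C SQ hS]
    exact hρ a b
  · obtain ⟨ρ, hρ0, hρ⟩ := hf2
    refine ⟨ρ, hρ0, fun a b => ?_⟩
    rw [dist_inr C SQ hS]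
    exact hρ a b
  · refine separates C SQ hS _ L (fun z => SemidirectProduct.left_inr _) ?_
    intro c hc
    obtain ⟨z, hz⟩ := hC c hc
    exact ⟨z, by rw [dist_inr C SQ hS]; exact hz⟩

end Pool.Agent.B1d060.Assemble
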