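import Mathlib

set_option autoImplicit false

/-! The Gupta-Sidki group on three letters: a finitely generated infinite torsion group. -/

namespace Pool.Agent.B1d060.GS

abbrev L3 : Type := List (ZMod 3)
abbrev P : Type := Equiv.Perm L3

def rotL (c : ZMod 3) : L3 → L3
  | [] => []
  | x :: w => (x + c) :: w

def tL (e : ZMod 3) : L3 → L3
  | [] => []
  | x :: w => x :: (if x = 0 then rotL e w else if x = 1 then rotL (-e) w else tL e w)

theorem rotL_add (c c' : ZMod 3) (w : L3) : rotL (c + c') w = rotL c (rotL c' w) := by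
  cases w with
  | nil => rfl
  | cons x w => simp only [rotL]; congr 1; ring

theorem rotL_zero (w : L3) : rotL 0 w = w := by
  cases w with
  | nil => rfl
  | cons x w => simp [rotL]

theorem tL_add (c c' : ZMod 3) (w : L3) : tL (c + c') w = tL c (tL c' w) := by
  induction w with
  | nil => rfl
  | cons x w ih =>
    simp only [tL]
    congr 1
    split_ifs
    · exact rotL_add _ _ _
    · rw [neg_add]; exact rotL_add _ _ _
    · exact ih

theorem tL_zero (w : L3) : tL 0 w = w := by
  induction w with
  | nil => rfl
  | cons x w ih =>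
    simp only [tL, neg_zero, rotL_zero, ih, ite_self]

def rot (c : ZMod 3) : P where
  toFun := rotL c
  invFun := rotL (-c)
  left_inv w := by rw [← rotL_add, neg_add_cancel, rotL_zero]
  right_inv w := by rw [← rotL_add, add_neg_cancel, rotL_zero]

def T (c : ZMod 3) : P where
  toFun := tL c
  invFun := tL (-c)
  left_inv w := by rw [← tL_add, neg_add_cancel, tL_zero]
  right_inv w := by rw [← tL_add, add_neg_cancel, tL_zero]

theorem rot_add (c c' : ZMod 3) : rot (c + c') = rot c * rot c' := by
  ext1 w; exact rotL_add c c' w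

theorem rot_zero : rot 0 = 1 := by
  ext1 w; exact rotL_zero w

theorem T_add (c c' : ZMod 3) : T (c + c') = T c * T c' := by
  ext1 w; exact tL_add c c' w

theorem T_zero : T 0 = 1 := by
  ext1 w; exact tL_zero w

theorem rot_apply (c x : ZMod 3) (w : L3) : rot c (x :: w) = (x + c) :: w := rfl

/-- first level section of `T e` -/
def sec (d e : ZMod 3) : P := if d = 0 then rot e else if d = 1 then rot (-e) else T e

theorem T_apply (e x : ZMod 3) (w : L3) : T e (x :: w) = x :: sec x e w := by
  change tL e (x :: w) = _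
  simp only [tL, sec]
  congr 1
  split_ifs <;> rfl

def Ty (y e : ZMod 3) : P := rot y * T e * rot (-y)

theorem Ty_apply (y e x : ZMod 3) (w : L3) : Ty y e (x :: w) = x :: sec (x - y) e w := by
  change rot y (T e (rot (-y) (x :: w))) = _
  rw [rot_apply, T_apply, rot_apply, ← sub_eq_add_neg, sub_add_cancel]

theorem Ty_add (y e e' : ZMod 3) : Ty y (e + e') = Ty y e * Ty y e' := by
  unfold Ty
  rw [T_add]
  have : rot (-y) * rot y = 1 := by rw [← rot_add, neg_add_cancel, rot_zero]
  calc rot y * (T e * T e') * rot (-y) = rot y * T e * 1 * T e' * rot (-y) := by group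
    _ = rot y * T e * (rot (-y) * rot y) * T e' * rot (-y) := by rw [this]
    _ = _ := by group

theorem rot_Ty (c y e : ZMod 3) : rot c * Ty y e = Ty (y + c) e * rot c := by
  unfold Ty
  have h1 : rot (y + c) = rot c * rot y := by rw [add_comm, rot_add]
  have h2 : rot (-(y + c)) * rot c = rot (-y) := by
    rw [← rot_add]; congr 1; ring
  calc rot c * (rot y * T e * rot (-y)) = (rot c * rot y) * T e * rot (-y) := by group
    _ = rot (y + c) * T e * (rot (-(y + c)) * rot c) := by rw [h1, h2]
    _ = _ := by group

def pr (l : List (ZMod 3 × ZMod 3)) : P := (l.map fun p => Ty p.1 p.2).prod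

def E (l : List (ZMod 3 × ZMod 3)) (c : ZMod 3) : P := pr l * rot c

def Sec (l : List (ZMod 3 × ZMod 3)) (x : ZMod 3) : P :=
  (l.map fun p => sec (x - p.1) p.2).prod

theorem pr_apply (l : List (ZMod 3 × ZMod 3)) (x : ZMod 3) (w : L3) :
    pr l (x :: w) = x :: Sec l x w := by
  induction l generalizing w with
  | nil => rfl
  | cons p l ih =>
    have h1 : pr (p :: l) = Ty p.1 p.2 * pr l := by simp [pr]
    have h2 : Sec (p :: l) x = sec (x - p.1) p.2 * Sec l x := by simp [Sec]
    rw [h1, h2, Equiv.Perm.mul_apply, ih, Ty_apply]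
    rfl

theorem E_apply (l : List (ZMod 3 × ZMod 3)) (c x : ZMod 3) (w : L3) :
    E l c (x :: w) = (x + c) :: Sec l (x + c) w := by
  change pr l (rot c (x :: w)) = _
  rw [rot_apply, pr_apply]

theorem E_nil (l : List (ZMod 3 × ZMod 3)) (c : ZMod 3) : E l c [] = [] := by
  change pr l (rot c []) = []
  have : rot c [] = [] := rfl
  rw [this]
  induction l with
  | nil => rfl
  | cons p l ih =>
    have h1 : pr (p :: l) = Ty p.1 p.2 * pr l := by simp [pr]
    rw [h1, Equiv.Perm.mul_apply, ih]
    rfl

def sh (c : ZMod 3) (l : List (ZMod 3 × ZMod 3)) : List (ZMod 3 × ZMod 3) :=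
  l.map fun p => (p.1 + c, p.2)

theorem rot_pr (c : ZMod 3) (l : List (ZMod 3 × ZMod 3)) :
    rot c * pr l = pr (sh c l) * rot c := by
  induction l with
  | nil => simp [pr, sh]
  | cons p l ih =>
    have h1 : pr (p :: l) = Ty p.1 p.2 * pr l := by simp [pr]
    have h2 : pr (sh c (p :: l)) = Ty (p.1 + c) p.2 * pr (sh c l) := by simp [pr, sh]
    rw [h1, h2, ← mul_assoc, rot_Ty, mul_assoc, ih, mul_assoc]

theorem rot_E (c c' : ZMod 3) (l : List (ZMod 3 × ZMod 3)) :
    rot c * E l c' = E (sh c l) (c + c') := by
  unfold E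
  rw [← mul_assoc, rot_pr, mul_assoc, ← rot_add]

theorem pr_append (l l' : List (ZMod 3 × ZMod 3)) : pr (l ++ l') = pr l * pr l' := by
  simp [pr]

theorem E_mul (l l' : List (ZMod 3 × ZMod 3)) (c c' : ZMod 3) :
    E l c * E l' c' = E (l ++ sh c l') (c + c') := by
  unfold E
  rw [mul_assoc, ← mul_assoc (rot c), rot_pr, pr_append, rot_add]
  group

/-- number of syllables visible in the section at `x` -/
def cnt (l : List (ZMod 3 × ZMod 3)) (x : ZMod 3) : ℕ := l.countP (fun p => x - p.1 = 2)

/-- rotation part coefficient -/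
def rc (d : ZMod 3) : ZMod 3 := if d = 0 then 1 else if d = 1 then -1 else 0

def rs (l : List (ZMod 3 × ZMod 3)) (x : ZMod 3) : ZMod 3 :=
  (l.map fun p => rc (x - p.1) * p.2).sum

theorem Sec_form (l : List (ZMod 3 × ZMod 3)) (x : ZMod 3) :
    ∃ l' : List (ZMod 3 × ZMod 3), l'.length = cnt l x ∧ Sec l x = E l' (rs l x) := by
  induction l with
  | nil => exact ⟨[], rfl, by simp [Sec, E, rs, pr, rot_zero]⟩
  | cons p l ih =>
    obtain ⟨l', hlen, hS⟩ := ih
    have h2 : Sec (p :: l) x = sec (x - p.1) p.2 * Sec l x := by simp [Sec]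
    have h3 : rs (p :: l) x = rc (x - p.1) * p.2 + rs l x := by simp [rs]
    rw [h2, h3, hS]
    have hcases : x - p.1 = 0 ∨ x - p.1 = 1 ∨ x - p.1 = 2 := by
      generalize x - p.1 = d
      revert d
      decide
    rcases hcases with h | h | h
    · refine ⟨sh p.2 l', ?_, ?_⟩
      · simp only [sh, List.length_map, cnt, List.countP_cons, h] at *
        rw [hlen]
        have : ¬ ((0 : ZMod 3) = 2) := by decide
        simp [this]
      · rw [h]
        simp only [sec, rc, if_true, one_mul]
        exact rot_E _ _ _
    · refine ⟨sh (-p.2) l', ?_, ?_⟩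
      · simp only [sh, List.length_map, cnt, List.countP_cons, h] at *
        rw [hlen]
        have : ¬ ((1 : ZMod 3) = 2) := by decide
        simp [this]
      · rw [h]
        have : ¬ ((1 : ZMod 3) = 0) := by decide
        simp only [sec, rc, if_true, if_neg this, neg_mul, one_mul]
        exact rot_E _ _ _
    · refine ⟨(0, p.2) :: l', ?_, ?_⟩
      · simp only [List.length_cons, cnt, List.countP_cons, h] at *
        rw [hlen]; simp
      · rw [h]
        have h20 : ¬ ((2 : ZMod 3) = 0) := by decide
        have h21 : ¬ ((2 : ZMod 3) = 1) := by decide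
        simp only [sec, rc, if_neg h20, if_neg h21, zero_mul, zero_add]
        have : pr ((0, p.2) :: l') = T p.2 * pr l' := by
          simp [pr, Ty, rot_zero]
        unfold E
        rw [this, mul_assoc]

theorem cnt_sum (l : List (ZMod 3 × ZMod 3)) (x : ZMod 3) :
    cnt l x + cnt l (x + 1) + cnt l (x + 2) = l.length := by
  induction l with
  | nil => rfl
  | cons p l ih =>
    simp only [cnt, List.countP_cons, List.length_cons] at *
    have key : ∀ a : ZMod 3, (if decide (a = 2) = true then 1 else 0) +
        (if decide (a + 1 = 2) = true then 1 else 0) +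
        (if decide (a + 2 = 2) = true then 1 else 0) = 1 := by decide
    have h := key (x - p.1)
    have h1 : x - p.1 + 1 = x + 1 - p.1 := by ring
    have h2 : x - p.1 + 2 = x + 2 - p.1 := by ring
    rw [h1, h2] at h
    omega

theorem rs_sum (l : List (ZMod 3 × ZMod 3)) (x : ZMod 3) :
    rs l x + rs l (x + 1) + rs l (x + 2) = 0 := by
  induction l with
  | nil => rfl
  | cons p l ih =>
    have h3 : ∀ x, rs (p :: l) x = rc (x - p.1) * p.2 + rs l x := by
      intro x; simp [rs]
    have key : ∀ a : ZMod 3, rc a + rc (a + 1) + rc (a + 2) = 0 := by decide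
    have h := key (x - p.1)
    have h1 : x - p.1 + 1 = x + 1 - p.1 := by ring
    have h2 : x - p.1 + 2 = x + 2 - p.1 := by ring
    rw [h1, h2] at h
    rw [h3, h3, h3]
    linear_combination ih + p.2 * h


theorem three_zero (c : ZMod 3) : c + c + c = 0 := by
  revert c; decide

theorem ne_zero_cases (c : ZMod 3) (h : c ≠ 0) : c = 1 ∨ c = 2 := by
  revert c; decide

/-- torsion from torsion of sections -/
theorem torsion_of_sections (g : P) (S : ZMod 3 → P) (hnil : g [] = [])
    (hg : ∀ x w, g (x :: w) = x :: S x w) (hS : ∀ x, IsOfFinOrder (S x)) : IsOfFinOrder g := by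
  have hpow : ∀ n : ℕ, ∀ x w, (g ^ n) (x :: w) = x :: ((S x) ^ n) w := by
    intro n
    induction n with
    | zero => intro x w; rfl
    | succ n ih =>
      intro x w
      rw [pow_succ, Equiv.Perm.mul_apply, hg, ih, pow_succ, Equiv.Perm.mul_apply]
  have hnilpow : ∀ n : ℕ, (g ^ n) [] = [] := by
    intro n
    induction n with
    | zero => rfl
    | succ n ih => rw [pow_succ, Equiv.Perm.mul_apply, hnil, ih]
  rw [isOfFinOrder_iff_pow_eq_one]
  refine ⟨∏ x : ZMod 3, orderOf (S x), Finset.prod_pos fun x _ => (hS x).orderOf_pos, ?_⟩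
  ext1 w
  cases w with
  | nil => exact hnilpow _
  | cons x w =>
    rw [hpow]
    have : orderOf (S x) ∣ ∏ x : ZMod 3, orderOf (S x) :=
      Finset.dvd_prod_of_mem _ (Finset.mem_univ x)
    rw [orderOf_dvd_iff_pow_eq_one.mp this]
    rfl

theorem cnt_le_half (x : ZMod 3) : ∀ l : List (ZMod 3 × ZMod 3),
    l.IsChain (fun p q => p.1 ≠ q.1) → cnt l x ≤ (l.length + 1) / 2 ∧
      (∀ p l', l = p :: l' → x - p.1 ≠ 2 → cnt l x ≤ l.length / 2)
  | [], _ => ⟨by simp [cnt], fun p l' h => by simp at h⟩
  | [p], _ => by
    constructor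
    · simp only [cnt, List.length_singleton]
      exact (List.countP_le_length).trans (by simp)
    · intro p' l' h hne
      simp only [List.cons.injEq] at h
      obtain ⟨rfl, rfl⟩ := h
      simp [cnt, List.countP_cons, hne]
  | p :: q :: l, hch => by
    have hch' : (q :: l).IsChain (fun p q => p.1 ≠ q.1) := by
      exact (List.isChain_cons_cons.mp hch).2
    have hpq : p.1 ≠ q.1 := (List.isChain_cons_cons.mp hch).1
    obtain ⟨ih1, ih2⟩ := cnt_le_half x (q :: l) hch'
    have hc : cnt (p :: q :: l) x = cnt (q :: l) x + if x - p.1 = 2 then 1 else 0 := by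
      simp [cnt, List.countP_cons]
    constructor
    · by_cases hp : x - p.1 = 2
      · have hq : x - q.1 ≠ 2 := by
          intro hq
          apply hpq
          have : x - p.1 = x - q.1 := hp.trans hq.symm
          exact sub_right_injective this
        have := ih2 q l rfl hq
        rw [hc, if_pos hp]
        simp only [List.length_cons] at *
        omega
      · rw [hc, if_neg hp]
        simp only [List.length_cons] at *
        omega
    · intro p' l' h hne
      simp only [List.cons.injEq] at h
      obtain ⟨rfl, rfl⟩ := h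
      rw [hc, if_neg hne]
      simp only [List.length_cons] at *
      omega

theorem merge : ∀ l : List (ZMod 3 × ZMod 3), ¬ l.IsChain (fun p q => p.1 ≠ q.1) →
    ∃ l' : List (ZMod 3 × ZMod 3), l'.length + 1 = l.length ∧ pr l' = pr l
  | [], h => absurd List.IsChain.nil h
  | [p], h => absurd (List.IsChain.singleton p) h
  | p :: q :: l, h => by
    by_cases hpq : p.1 = q.1
    · refine ⟨(p.1, p.2 + q.2) :: l, by simp, ?_⟩
      simp only [pr, List.map_cons, List.prod_cons, Ty_add]
      rw [hpq]
      group
    · have h' : ¬ (q :: l).IsChain (fun p q => p.1 ≠ q.1) := by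
        intro hc
        exact h (List.isChain_cons_cons.mpr ⟨hpq, hc⟩)
      obtain ⟨l', hlen, hpr⟩ := merge (q :: l) h'
      refine ⟨p :: l', by simp only [List.length_cons] at *; omega, ?_⟩
      have h1 : pr (p :: l') = Ty p.1 p.2 * pr l' := by simp [pr]
      have h2 : pr (p :: q :: l) = Ty p.1 p.2 * pr (q :: l) := by simp [pr]
      rw [h1, h2, hpr]

theorem T_pow (e : ZMod 3) (n : ℕ) : T e ^ n = T (n * e) := by
  induction n with
  | zero => simp [T_zero]
  | succ n ih =>
    rw [pow_succ, ih, ← T_add]
    congr 1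
    push_cast
    ring

theorem Ty_torsion (y e : ZMod 3) : IsOfFinOrder (Ty y e) := by
  have h1 : IsOfFinOrder (T e) := by
    rw [isOfFinOrder_iff_pow_eq_one]
    refine ⟨3, by norm_num, ?_⟩
    rw [T_pow]
    have : ((3 : ℕ) : ZMod 3) = 0 := by decide
    rw [this, zero_mul, T_zero]
  have h2 : Ty y e = rot y * T e * (rot y)⁻¹ := by
    unfold Ty
    congr 1
    rw [eq_inv_iff_mul_eq_one, ← rot_add, neg_add_cancel, rot_zero]
  rw [h2]
  exact (MulAut.conj (rot y)).toMonoidHom.isOfFinOrder h1

theorem torsion_aux : ∀ n : ℕ,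
    (∀ l : List (ZMod 3 × ZMod 3), l.length ≤ n → IsOfFinOrder (E l 0)) ∧
    (∀ (l : List (ZMod 3 × ZMod 3)) (c : ZMod 3), l.length ≤ n → IsOfFinOrder (E l c)) := by
  intro n
  induction n with
  | zero =>
    have h0 : ∀ l : List (ZMod 3 × ZMod 3), l.length ≤ 0 → IsOfFinOrder (E l 0) := by
      intro l hl
      have : l = [] := List.length_eq_zero_iff.mp (Nat.le_zero.mp hl)
      subst this
      have : E [] 0 = 1 := by simp [E, pr, rot_zero]
      rw [this]
      exact IsOfFinOrder.one
    refine ⟨h0, ?_⟩
    intro l c hl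
    have : l = [] := List.length_eq_zero_iff.mp (Nat.le_zero.mp hl)
    subst this
    have h3 : E [] c ^ 3 = 1 := by
      have : E [] c = rot c := by simp [E, pr]
      rw [this, pow_succ, pow_succ, pow_one, ← rot_add, ← rot_add]
      rw [three_zero, rot_zero]
    rw [isOfFinOrder_iff_pow_eq_one]
    exact ⟨3, by norm_num, h3⟩
  | succ n ih =>
    have hQ : ∀ l : List (ZMod 3 × ZMod 3), l.length ≤ n + 1 → IsOfFinOrder (E l 0) := by
      intro l hl
      by_cases hch : l.IsChain (fun p q => p.1 ≠ q.1)
      · by_cases hn : l.length ≤ 1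
        · match l, hn with
          | [], _ =>
            have : E [] 0 = 1 := by simp [E, pr, rot_zero]
            rw [this]
            exact IsOfFinOrder.one
          | [p], _ =>
            have : E [p] 0 = Ty p.1 p.2 := by simp [E, pr, rot_zero]
            rw [this]
            exact Ty_torsion _ _
        · refine torsion_of_sections (E l 0) (Sec l) (E_nil l 0) ?_ ?_
          · intro x w
            rw [E_apply, add_zero]
          · intro x
            obtain ⟨l', hlen, hS⟩ := Sec_form l x
            rw [hS]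
            apply ih.2
            rw [hlen]
            have := (cnt_le_half x l hch).1
            omega
      · obtain ⟨l', hlen, hpr⟩ := merge l hch
        have : E l 0 = E l' 0 := by unfold E; rw [hpr]
        rw [this]
        exact ih.1 l' (by omega)
    refine ⟨hQ, ?_⟩
    intro l c hl
    by_cases hc : c = 0
    · subst hc; exact hQ l hl
    · have hcube : IsOfFinOrder (E l c ^ 3) := by
        refine torsion_of_sections _ (fun x => Sec l (x + c + c + c) * Sec l (x + c + c) *
          Sec l (x + c)) ?_ ?_ ?_
        · rw [pow_succ, pow_succ, pow_one, Equiv.Perm.mul_apply, Equiv.Perm.mul_apply, E_nil,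
            E_nil, E_nil]
        · intro x w
          rw [pow_succ, pow_succ, pow_one, Equiv.Perm.mul_apply, Equiv.Perm.mul_apply,
            E_apply, E_apply, E_apply]
          have h3 : x + c + c + c = x := by
            calc x + c + c + c = x + (c + c + c) := by ring
              _ = x := by rw [three_zero, add_zero]
          rw [h3]
          rfl
        · intro x
          obtain ⟨l1, hlen1, hS1⟩ := Sec_form l (x + c + c + c)
          obtain ⟨l2, hlen2, hS2⟩ := Sec_form l (x + c + c)
          obtain ⟨l3, hlen3, hS3⟩ := Sec_form l (x + c)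
          change IsOfFinOrder (Sec l (x + c + c + c) * Sec l (x + c + c) * Sec l (x + c))
          rw [hS1, hS2, hS3, E_mul, E_mul]
          have hsum : cnt l (x + c + c + c) + cnt l (x + c + c) + cnt l (x + c) = l.length := by
            have hc' : c = 1 ∨ c = 2 := ne_zero_cases c hc
            rcases hc' with rfl | rfl
            · have := cnt_sum l (x + 1)
              have h2 : x + 1 + 2 = x + 1 + 1 + 1 := by ring
              rw [h2] at this
              omega
            · have := cnt_sum l (x + 2)
              have h2 : x + 2 + 2 + 2 = x + 2 + 1 := by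
                have : (2 : ZMod 3) + 2 = 1 := by decide
                calc x + 2 + 2 + 2 = x + 2 + (2 + 2) := by ring
                  _ = x + 2 + 1 := by rw [this]
              rw [h2]
              omega
          have hrs : rs l (x + c + c + c) + rs l (x + c + c) + rs l (x + c) = 0 := by
            have hc' : c = 1 ∨ c = 2 := ne_zero_cases c hc
            rcases hc' with rfl | rfl
            · have := rs_sum l (x + 1)
              have h2 : x + 1 + 2 = x + 1 + 1 + 1 := by ring
              rw [h2] at this
              linear_combination this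
            · have := rs_sum l (x + 2)
              have h2 : x + 2 + 2 + 2 = x + 2 + 1 := by
                have : (2 : ZMod 3) + 2 = 1 := by decide
                calc x + 2 + 2 + 2 = x + 2 + (2 + 2) := by ring
                  _ = x + 2 + 1 := by rw [this]
              rw [h2]
              linear_combination this
          rw [hrs]
          apply hQ
          simp only [sh, List.length_append, List.length_map, hlen1, hlen2, hlen3]
          omega
      exact hcube.of_pow (by norm_num)

theorem torsion_E (l : List (ZMod 3 × ZMod 3)) (c : ZMod 3) : IsOfFinOrder (E l c) :=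
  (torsion_aux l.length).2 l c le_rfl

/-- the Gupta-Sidki group -/
def GS : Subgroup P := Subgroup.closure {rot 1, T 1}

theorem form (g : P) (hg : g ∈ GS) : ∃ l c, g = E l c := by
  induction hg using Subgroup.closure_induction with
  | mem x hx =>
    rcases hx with rfl | hx
    · exact ⟨[], 1, by simp [E, pr]⟩
    · rw [Set.mem_singleton_iff] at hx
      subst hx
      exact ⟨[(0, 1)], 0, by simp [E, pr, Ty, rot_zero]⟩
  | one => exact ⟨[], 0, by simp [E, pr, rot_zero]⟩
  | mul x y _ _ hx hy =>
    obtain ⟨l, c, rfl⟩ := hx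
    obtain ⟨l', c', rfl⟩ := hy
    exact ⟨_, _, E_mul l l' c c'⟩
  | inv x _ hx =>
    obtain ⟨l, c, rfl⟩ := hx
    have h := torsion_E l c
    rw [isOfFinOrder_iff_pow_eq_one] at h
    obtain ⟨n, hn, h⟩ := h
    have hinv : (E l c)⁻¹ = E l c ^ (n - 1) := by
      rw [inv_eq_iff_mul_eq_one, ← pow_succ', Nat.sub_add_cancel hn, h]
    have hpow : ∀ k : ℕ, ∃ l' c', E l c ^ k = E l' c' := by
      intro k
      induction k with
      | zero => exact ⟨[], 0, by simp [E, pr, rot_zero]⟩
      | succ k ih =>
        obtain ⟨l', c', h⟩ := ih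
        rw [pow_succ, h]
        exact ⟨_, _, E_mul l' l c' c⟩
    rw [hinv]
    exact hpow _

theorem torsion (g : GS) : IsOfFinOrder g := by
  obtain ⟨l, c, h⟩ := form g.1 g.2
  have h1 : IsOfFinOrder (g : P) := h ▸ torsion_E l c
  exact (Function.Injective.isOfFinOrder_iff (f := GS.subtype) Subtype.val_injective).mp h1


/-- elements with a prescribed action below the vertex `2` -/
theorem lift_exists (h : P) (hh : h ∈ GS) :
    ∃ g ∈ GS, (∀ x w, ∃ w', g (x :: w) = x :: w') ∧ ∀ w, g (2 :: w) = 2 :: h w := by
  have hrot : rot 1 ∈ GS := Subgroup.subset_closure (by simp)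
  have hT : T 1 ∈ GS := Subgroup.subset_closure (by simp)
  induction hh using Subgroup.closure_induction with
  | mem x hx =>
    rcases hx with rfl | hx
    · refine ⟨rot 1 * rot 1 * T 1 * (rot 1 * rot 1)⁻¹, ?_, ?_, ?_⟩
      · exact mul_mem (mul_mem (mul_mem hrot hrot) hT) (inv_mem (mul_mem hrot hrot))
      · intro x w
        have e : rot 1 * rot 1 * T 1 * (rot 1 * rot 1)⁻¹ = Ty 2 1 := by
          unfold Ty
          have h2 : rot 1 * rot 1 = rot 2 := by rw [← rot_add]; rfl
          rw [h2]
          congr 1
        rw [e, Ty_apply]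
        exact ⟨_, rfl⟩
      · intro w
        have e : rot 1 * rot 1 * T 1 * (rot 1 * rot 1)⁻¹ = Ty 2 1 := by
          unfold Ty
          have h2 : rot 1 * rot 1 = rot 2 := by rw [← rot_add]; rfl
          rw [h2]
          congr 1
        rw [e, Ty_apply, sub_self]
        rfl
    · rw [Set.mem_singleton_iff] at hx
      subst hx
      refine ⟨T 1, hT, ?_, ?_⟩
      · intro x w
        rw [T_apply]
        exact ⟨_, rfl⟩
      · intro w
        rw [T_apply]
        have h20 : ¬ ((2 : ZMod 3) = 0) := by decide
        have h21 : ¬ ((2 : ZMod 3) = 1) := by decide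
        simp only [sec, if_neg h20, if_neg h21]
  | one => exact ⟨1, one_mem _, fun x w => ⟨w, rfl⟩, fun w => rfl⟩
  | mul x y _ _ hx hy =>
    obtain ⟨g, hg, hg1, hg2⟩ := hx
    obtain ⟨g', hg', hg1', hg2'⟩ := hy
    refine ⟨g * g', mul_mem hg hg', ?_, ?_⟩
    · intro x w
      obtain ⟨w', hw'⟩ := hg1' x w
      obtain ⟨w'', hw''⟩ := hg1 x w'
      exact ⟨w'', by rw [Equiv.Perm.mul_apply, hw', hw'']⟩
    · intro w
      rw [Equiv.Perm.mul_apply, hg2', hg2]
      rfl
  | inv x _ hx =>
    obtain ⟨g, hg, hg1, hg2⟩ := hx
    refine ⟨g⁻¹, inv_mem hg, ?_, ?_⟩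
    · intro x w
      cases hgw : g⁻¹ (x :: w) with
      | nil =>
        exfalso
        have h1 : g [] = x :: w := by rw [← hgw]; simp
        obtain ⟨l, c, h⟩ := form g hg
        rw [h, E_nil] at h1
        exact absurd h1 (by simp)
      | cons y w' =>
        have h1 : g (y :: w') = x :: w := by rw [← hgw]; simp
        obtain ⟨w'', hw''⟩ := hg1 y w'
        rw [hw''] at h1
        simp only [List.cons.injEq] at h1
        exact ⟨w', by rw [h1.1]⟩
    · intro w
      have h1 : g (2 :: x⁻¹ w) = 2 :: w := by rw [hg2]; simp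
      rw [← h1]; simp

theorem infinite : Infinite GS := by
  by_contra hfin
  rw [not_infinite_iff_finite] at hfin
  have hc : ∀ h : GS, ∃ g : GS, (∀ x w, ∃ w', (g : P) (x :: w) = x :: w') ∧
      ∀ w, (g : P) (2 :: w) = 2 :: (h : P) w := by
    intro h
    obtain ⟨g, hg, h1, h2⟩ := lift_exists h h.2
    exact ⟨⟨g, hg⟩, h1, h2⟩
  choose F hF1 hF2 using hc
  have hinj : Function.Injective F := by
    intro a b hab
    apply Subtype.ext
    ext1 w
    have h1 := hF2 a w
    have h2 := hF2 b w
    rw [hab, h2] at h1
    simp only [List.cons.injEq, true_and] at h1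
    exact h1.symm
  have hsurj : Function.Surjective F := Finite.surjective_of_injective hinj
  have hrot : rot 1 ∈ GS := Subgroup.subset_closure (by simp)
  obtain ⟨h, hh⟩ := hsurj ⟨rot 1, hrot⟩
  obtain ⟨w', hw'⟩ := hF1 h 0 []
  rw [hh] at hw'
  change rot 1 (0 :: []) = 0 :: w' at hw'
  rw [rot_apply] at hw'
  simp at hw'

end Pool.Agent.B1d060.GS
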