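import Mathlib
import Pool.Agent.B1d060.Geo

set_option autoImplicit false

/-! Word distances in finite powers. -/

namespace Pool.Agent.B1d060.Prods

open Pool.Agent.B1d060.Geo

section

variable {A : Type} [Group A] (S : Finset A) (n : ℕ)

open Classical in
/-- generators of the power -/
noncomputable def SP : Finset (Fin n → A) :=
  Finset.univ.biUnion (fun i : Fin n => S.image (fun s => (Pi.mulSingle i s : Fin n → A)))

theorem mem_SP (q : Fin n → A) : q ∈ SP S n ↔ ∃ i, ∃ s ∈ S, Pi.mulSingle i s = q := by
  classical
  unfold SP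
  rw [Finset.mem_biUnion]
  constructor
  · rintro ⟨i, _, h⟩
    rw [Finset.mem_image] at h
    obtain ⟨s, hs, h⟩ := h
    exact ⟨i, s, hs, h⟩
  · rintro ⟨i, s, hs, h⟩
    refine ⟨i, Finset.mem_univ i, ?_⟩
    rw [Finset.mem_image]
    exact ⟨s, hs, h⟩

variable {S}

theorem closure_SP (hS : Subgroup.closure (S : Set A) = ⊤) :
    Subgroup.closure (SP S n : Set (Fin n → A)) = ⊤ := by
  rw [eq_top_iff]
  intro q _
  have h1 : ∀ (i : Fin n) (a : A), (Pi.mulSingle i a : Fin n → A) ∈
      Subgroup.closure (SP S n : Set (Fin n → A)) := by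
    intro i a
    have ha : a ∈ Subgroup.closure (S : Set A) := by rw [hS]; trivial
    induction ha using Subgroup.closure_induction with
    | mem x hx =>
      apply Subgroup.subset_closure
      rw [Finset.mem_coe, mem_SP]
      exact ⟨i, x, hx, rfl⟩
    | one => rw [Pi.mulSingle_one]; exact one_mem _
    | mul x y _ _ hx hy => rw [Pi.mulSingle_mul]; exact mul_mem hx hy
    | inv x _ hx => rw [Pi.mulSingle_inv]; exact inv_mem hx
  exact Subgroup.pi_mem_of_mulSingle_mem q (fun i => h1 i (q i))

theorem dist_eval_le (hS : Subgroup.closure (S : Set A) = ⊤) (i : Fin n) (q q' : Fin n → A) :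
    (Cay S).dist (q i) (q' i) ≤ (Cay (SP S n)).dist q q' := by
  refine dist_hom (closure_SP n hS) (Pi.evalMonoidHom (fun _ : Fin n => A) i) ?_ q q'
  intro s hs
  rw [mem_SP] at hs
  obtain ⟨j, a, ha, rfl⟩ := hs
  by_cases h : i = j
  · subst h
    right
    simpa using ha
  · left
    simp [Pi.mulSingle_eq_of_ne h]

theorem dist_one_coord (hS : Subgroup.closure (S : Set A) = ⊤) (q : Fin n → A) (i : Fin n)
    (a : A) : (Cay (SP S n)).dist q (Function.update q i a) ≤ (Cay S).dist (q i) a := by
  have e : Function.update q i a = q * Pi.mulSingle i ((q i)⁻¹ * a) := by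
    funext j
    by_cases h : j = i
    · subst h
      simp
    · rw [Function.update_of_ne h, Pi.mul_apply, Pi.mulSingle_eq_of_ne h, mul_one]
  have h1 : (Cay (SP S n)).dist q (Function.update q i a) =
      (Cay (SP S n)).dist 1 (Pi.mulSingle i ((q i)⁻¹ * a)) := by
    rw [e]
    have := dist_left (closure_SP n hS) q 1 (Pi.mulSingle i ((q i)⁻¹ * a))
    rwa [mul_one] at this
  have h2 : (Cay S).dist (q i) a = (Cay S).dist 1 ((q i)⁻¹ * a) := by
    have := dist_left hS (q i) 1 ((q i)⁻¹ * a)
    rwa [mul_one, mul_inv_cancel_left] at this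
  rw [h1, h2]
  have := dist_hom (S' := SP S n) hS (MonoidHom.mulSingle (fun _ : Fin n => A) i) (by
    intro s hs
    right
    rw [mem_SP]
    exact ⟨i, s, hs, rfl⟩) 1 ((q i)⁻¹ * a)
  simpa using this

theorem dist_le_sum (hS : Subgroup.closure (S : Set A) = ⊤) (q q' : Fin n → A) :
    (Cay (SP S n)).dist q q' ≤ ∑ i, (Cay S).dist (q i) (q' i) := by
  classical
  have hconn := connected (closure_SP n hS)
  have key : ∀ s : Finset (Fin n), (Cay (SP S n)).dist q (fun i => if i ∈ s then q' i else q i) ≤
      ∑ i ∈ s, (Cay S).dist (q i) (q' i) := by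
    intro s
    induction s using Finset.induction_on with
    | empty => simp
    | insert a s ha ih =>
      rw [Finset.sum_insert ha]
      have e : (fun i => if i ∈ insert a s then q' i else q i) =
          Function.update (fun i => if i ∈ s then q' i else q i) a (q' a) := by
        funext j
        by_cases h : j = a
        · subst h; simp
        · rw [Function.update_of_ne h]
          simp [Finset.mem_insert, h]
      rw [e]
      have h1 := dist_one_coord n hS (fun i => if i ∈ s then q' i else q i) a (q' a)
      simp only [if_neg ha] at h1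
      have h2 := hconn.dist_triangle (u := q) (v := fun i => if i ∈ s then q' i else q i)
        (w := Function.update (fun i => if i ∈ s then q' i else q i) a (q' a))
      omega
  have := key Finset.univ
  simpa using this

end

end Pool.Agent.B1d060.Prods
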