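import Mathlib
import Pool.Agent.B1d060.GS
import Pool.Agent.B1d060.Prods
import Pool.Agent.B1d060.Assemble

set_option autoImplicit false

/-! The simple counterexample: `C` trivial, `Q` a power of the Gupta-Sidki group. -/

namespace Pool.Agent.B1d060.Simple

open Filter
open Pool.Agent.B1d060.Geo Pool.Agent.B1d060.Prods Pool.Agent.B1d060.Assemble

theorem power_torsion {A : Type} [Group A] (hA : ∀ a : A, IsOfFinOrder a) {n : ℕ}
    (q : Fin n → A) : IsOfFinOrder q := by
  rw [isOfFinOrder_iff_pow_eq_one]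
  refine ⟨∏ i, orderOf (q i), Finset.prod_pos fun i _ => (hA (q i)).orderOf_pos, ?_⟩
  funext j
  rw [Pi.pow_apply, Pi.one_apply]
  exact orderOf_dvd_iff_pow_eq_one.mp (Finset.dvd_prod_of_mem _ (Finset.mem_univ j))

open Classical in
/-- generators of the Gupta-Sidki group -/
noncomputable def SA : Finset GS.GS :=
  {⟨GS.rot 1, Subgroup.subset_closure (by simp)⟩, ⟨GS.T 1, Subgroup.subset_closure (by simp)⟩}

theorem closure_SA : Subgroup.closure (SA : Set GS.GS) = ⊤ := by
  classical
  have h1 : (SA : Set GS.GS) = ((↑) : GS.GS → GS.P) ⁻¹' {GS.rot 1, GS.T 1} := by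
    ext x
    unfold SA
    simp only [Finset.coe_insert, Finset.coe_singleton, Set.mem_insert_iff,
      Set.mem_singleton_iff, Set.mem_preimage]
    constructor
    · rintro (h | h)
      · left; rw [h]
      · right; rw [h]
    · rintro (h | h)
      · left; exact Subtype.ext h
      · right; exact Subtype.ext h
  rw [h1]
  exact Subgroup.closure_closure_coe_preimage

theorem not_stmt (n : ℕ) (hn : 3 < n) : ¬ Stmt n := by
  have := GS.infinite
  obtain ⟨γ, hγ0, hγ⟩ := exists_geodesic closure_SA
  have hlen : ∀ (a b : Fin (n - 2) → ℤ) (i : Fin (n - 2)),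
      (a i - b i).natAbs ≤ (∑ i, |a i - b i|).toNat := by
    intro a b i
    have h1 : |a i - b i| ≤ ∑ i, |a i - b i| :=
      Finset.single_le_sum (f := fun i => |a i - b i|) (fun j _ => abs_nonneg _)
        (Finset.mem_univ i)
    have h2 : |a i - b i| = ((a i - b i).natAbs : ℤ) := Int.abs_eq_natAbs _
    omega
  let f : (Fin (n - 2) → ℤ) → (Fin n → GS.GS) := fun a i =>
    if h : (i : ℕ) < n - 2 then γ (a ⟨i, h⟩) else 1
  refine not_Stmt n hn (⊥ : Subgroup (Fin n → GS.GS)) (SP SA n) (closure_SP n closure_SA)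
    (fun q => power_torsion GS.torsion q) (2 * n) (fun z i => γ (z i)) ?_ ?_ f ?_ ?_ 0 ?_
  · intro z w hzw
    refine (dist_le_sum n closure_SA _ _).trans ?_
    calc ∑ i, (Cay SA).dist (γ (z i)) (γ (w i)) ≤ ∑ _i : Fin n, 2 := by
          refine Finset.sum_le_sum fun i _ => ?_
          rw [hγ]
          have := hzw i
          omega
      _ = 2 * n := by simp [mul_comm]
  · intro z w i
    have h1 := dist_eval_le n closure_SA i (fun i => γ (z i)) (fun i => γ (w i))
    rw [hγ] at h1
    omega
  · refine ⟨fun t => n * t, fun a b => ?_⟩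
    refine (dist_le_sum n closure_SA _ _).trans ?_
    calc ∑ i, (Cay SA).dist (f a i) (f b i) ≤ ∑ _i : Fin n, (∑ i, |a i - b i|).toNat := by
          refine Finset.sum_le_sum fun i _ => ?_
          by_cases h : (i : ℕ) < n - 2
          · have e1 : f a i = γ (a ⟨i, h⟩) := by simp [f, h]
            have e2 : f b i = γ (b ⟨i, h⟩) := by simp [f, h]
            rw [e1, e2, hγ]
            exact hlen a b ⟨i, h⟩
          · have e1 : f a i = 1 := by simp [f, h]
            have e2 : f b i = 1 := by simp [f, h]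
            rw [e1, e2, SimpleGraph.dist_self]
            exact Nat.zero_le _
      _ = n * (∑ i, |a i - b i|).toNat := by simp
  · refine ⟨fun t => t / n, Nat.tendsto_div_const_atTop (by omega), fun a b => ?_⟩
    have h1 : ∀ i : Fin (n - 2), (a i - b i).natAbs ≤ (Cay (SP SA n)).dist (f a) (f b) := by
      intro i
      have hi : (i : ℕ) < n := by have := i.2; omega
      have h2 := dist_eval_le n closure_SA ⟨i, hi⟩ (f a) (f b)
      have e1 : f a ⟨i, hi⟩ = γ (a i) := by simp [f]
      have e2 : f b ⟨i, hi⟩ = γ (b i) := by simp [f]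
      rw [e1, e2, hγ] at h2
      exact h2
    have h3 : ∑ i, |a i - b i| ≤ ((n - 2 : ℕ) : ℤ) * (Cay (SP SA n)).dist (f a) (f b) := by
      calc ∑ i, |a i - b i| ≤ ∑ _i : Fin (n - 2), ((Cay (SP SA n)).dist (f a) (f b) : ℤ) := by
            refine Finset.sum_le_sum fun i _ => ?_
            have := h1 i
            have h2 : |a i - b i| = ((a i - b i).natAbs : ℤ) := Int.abs_eq_natAbs _
            omega
        _ = _ := by simp
    have h4 : (∑ i, |a i - b i|).toNat ≤ (n - 2) * (Cay (SP SA n)).dist (f a) (f b) := by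
      have h5 : ((n - 2 : ℕ) : ℤ) * (Cay (SP SA n)).dist (f a) (f b) =
        (((n - 2) * (Cay (SP SA n)).dist (f a) (f b) : ℕ) : ℤ) := by push_cast; rfl
      rw [h5] at h3
      omega
    change (∑ i, |a i - b i|).toNat / n ≤ _
    apply Nat.div_le_of_le_mul
    refine h4.trans (Nat.mul_le_mul_right _ (by omega))
  · intro c hc
    rw [Subgroup.mem_bot] at hc
    subst hc
    refine ⟨0, ?_⟩
    have : f 0 = 1 := by
      funext i
      by_cases h : (i : ℕ) < n - 2
      · simp [f, h, hγ0]
      · simp [f, h]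
    rw [this, SimpleGraph.dist_self]

end Pool.Agent.B1d060.Simple
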